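import Pool.Agent.Lib.MP_5c318e_ag.K.TubeB
import Pool.Agent.Lib.MP_5c318e_ag.G.Pk

/-! The line spanned by a holomorphic section of top type on a Riemann domain. -/

set_option autoImplicit false
set_option linter.unusedSectionVars false

namespace Pool.Agent.Lib.MP_5c318e_ag.K

open Complex Filter Topology Matrix V B G
open scoped ContDiff ComplexConjugate ComplexOrder

noncomputable section

variable {ι : Type} [Fintype ι] {n : Type} [Fintype n] [DecidableEq n] {w : ℕ}
  {S : Type} [TopologicalSpace S] [MeasurableSpace S]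

/-- the top component of the derivative of `om` stays in the line of `om` -/
def Full (D : RD ι S) (w : ℕ) (P : ℤ → S → Matrix n n ℂ) (om : S → n → ℂ) : Prop :=
  ∀ x ξ, ∃ c : ℂ, P w x *ᵥ fderiv ℂ (fun z => om (D.sec x z)) (D.π x) ξ = c • om x

/-- a nowhere vanishing holomorphic section of top type with the fullness property -/
structure Line (D : RD ι S) (w : ℕ) (Q : Matrix n n ℂ) (P : ℤ → S → Matrix n n ℂ)
    (om : S → n → ℂ) : Prop where
  glv : GLV D w Q P
  hol : D.Hol om
  top : ∀ x, P w x *ᵥ om x = om x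
  ne : ∀ x, om x ≠ 0
  full : Full D w P om

section loc

variable {E : Type*} [NormedAddCommGroup E] [NormedSpace ℂ E] [FiniteDimensional ℂ E]
  {U : Set E} {Q : Matrix n n ℂ} {T : Finset ℤ} {π : ℤ → E → Matrix n n ℂ} {p : ℤ}
  {om : E → n → ℂ} {x : E}

/-- the derivative of a holomorphic section of pure type -/
theorem d_top (L : LV U Q T π) (hol : DifferentiableOn ℂ om U) (top : ∀ x ∈ U, π p x *ᵥ om x = om x)
    (hx : x ∈ U) (ξ : E) : fderiv ℂ om x ξ =
      π p x *ᵥ fderiv ℂ om x ξ + th (fun x => Q * wey T π x) ξ x *ᵥ om x := by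
  have dA : ∀ y ∈ U, DifferentiableAt ℂ om y := fun y hy => hol.differentiableAt (L.op.mem_nhds hy)
  have sC : SmM (fun y => replicateCol Unit (om y)) x := fun i _ =>
    sm_of_holo (eventually_of_mem (L.op.mem_nhds hx) fun y hy => differentiableAt_pi.1 (dA y hy) i)
  have dC : derM (-I) ξ (fun y => replicateCol Unit (om y)) x =
      replicateCol Unit (fderiv ℂ om x ξ) := by
    ext i j
    refine (d_holo (differentiableAt_pi.1 (dA x hx) i)).trans ?_
    rw [fderiv_apply (dA x hx) i]
    rfl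
  have e := derM_congr_on (c := -I) (ξ := ξ) (f := fun y => π p y * replicateCol Unit (om y))
    (g := fun y => replicateCol Unit (om y)) L.op hx fun y hy => by
      rw [← replicateCol_mulVec, top y hy]
  rw [derM_mul (L.sm p x hx) sC, dC, L.d_prj hx] at e
  have z : π p x * th (fun x => Q * wey T π x) ξ x * π p x = 0 := by
    rw [Matrix.mul_assoc, L.th_shift hx, ← Matrix.mul_assoc,
      (L.prj x hx).orth p (p - 1) (by omega), Matrix.zero_mul]
  have z' : (π p x * th (fun x => Q * wey T π x) ξ x) *ᵥ om x = 0 := by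
    rw [← top x hx, mulVec_mulVec, z, zero_mulVec]
  rw [← replicateCol_mulVec, ← replicateCol_mulVec, ← replicateCol_add, sub_mulVec, z', sub_zero,
    ← mulVec_mulVec, top x hx] at e
  funext i
  have := congrFun (congrFun e i) ()
  simp only [replicateCol_apply, Pi.add_apply] at this ⊢
  rw [add_comm]
  exact this.symm

end loc

namespace Line

variable {D : RD ι S} {Q : Matrix n n ℂ} {P : ℤ → S → Matrix n n ℂ} {om : S → n → ℂ}

theorem dAt (L : Line D w Q P om) (x : S) {z : ι → ℂ} (hz : z ∈ (D.ch x).target) :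
    DifferentiableAt ℂ (fun z => om (D.sec x z)) z := by
  have := L.hol (D.sec x z)
  rw [RD.π_sec hz] at this
  exact this.congr_of_eventuallyEq (RD.germ_f om hz)

theorem topL (L : Line D w Q P om) (x : S) :
    TopL (D.ch x).target Q (wt w) (fun p z => P p (D.sec x z)) w fun z => om (D.sec x z) where
  lv := L.glv.lv x
  hol := fun _ hz => (L.dAt x hz).differentiableWithinAt
  top := fun _ _ => L.top _
  ne := fun _ _ => L.ne _
  one := fun z hz ξ => by
    obtain ⟨c, hc⟩ := L.full (D.sec x z) ξ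
    rw [RD.π_sec hz, ← (RD.germ_f om hz).fderiv_eq] at hc
    refine ⟨c, ?_⟩
    rw [← hc]
    exact d_top (L.glv.lv x) (fun _ hz => (L.dAt x hz).differentiableWithinAt)
      (fun _ _ => L.top _) hz ξ

theorem cont (L : Line D w Q P om) : Continuous om :=
  RD.cont_of_sec fun x => (L.hol x).continuousAt

theorem pos (L : Line D w Q P om) (x : S) : 0 < hn (hh w Q P x) (om x) :=
  hn_pos (L.glv.pos x) (L.ne x)

theorem sm (L : Line D w Q P om) : D.Sm fun x => hn (hh w Q P x) (om x) := fun x =>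
  (L.topL x).smN (D.mem_tgt x)

/-- the Hodge metric of the line has nonnegative curvature -/
theorem psh (L : Line D w Q P om) : D.Psh fun x => -Real.log (hn (hh w Q P x) (om x)) :=
  ⟨fun x => (((L.topL x).smN (D.mem_tgt x)).log ((L.topL x).posN (D.mem_tgt x)).ne').neg,
    fun x ξ => (L.topL x).lev_nonneg (D.mem_tgt x) ξ⟩

end Line

section pk

variable [T2Space S] [SigmaCompactSpace S] {D : RD ι S} {V : Pk D n w} {om : V.Bt → n → ℂ}

theorem line_of_top (T : V.Top om) (hne : ∀ x, om x ≠ 0) (hF : Full V.rd w V.P om) :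
    Line V.rd w V.Q V.P om := ⟨V.glv, T.hol, T.top, hne, hF⟩

theorem N_eq (T : V.Top om) (x : V.Bt) : V.N om x.y = hn (V.h x) (om x) := T.N_eq x

/-- the elements acting on all `om x` by one scalar -/
def Nn (_T : V.Top om) (hne : ∀ x, om x ≠ 0) : Subgroup V.Γ where
  carrier := {γ | V.Sc om γ}
  one_mem' := ⟨1, fun x => by simp [cx]⟩
  mul_mem' := fun {a b} ⟨l, hl⟩ ⟨k, hk⟩ => ⟨k * l, fun x => by
    rw [V.cx_coe_mul, ← mulVec_mulVec, hk, mulVec_smul, hl, smul_smul]⟩
  inv_mem' := fun {a} ⟨l, hl⟩ => ⟨l⁻¹, fun x => by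
    have e : l • cx ((a⁻¹ : V.Γ) : GL n ℤ) *ᵥ om x = om x := by
      rw [← mulVec_smul, ← hl, mulVec_mulVec, V.cx_coe_inv_mul, one_mulVec]
    have h0 : l ≠ 0 := fun h => hne x (by rw [← e, h, zero_smul])
    conv_rhs => rw [← e, smul_smul, inv_mul_cancel₀ h0, one_smul]⟩

instance (T : V.Top om) (hne : ∀ x, om x ≠ 0) : (Nn T hne).Normal :=
  ⟨fun a ⟨l, hl⟩ g => ⟨l, fun x => by
    have e : cx ((g⁻¹ : V.Γ) : GL n ℤ) *ᵥ om x = om (g⁻¹ • x) := (T.eqv _ _).symm
    rw [V.cx_coe_mul, V.cx_coe_mul, ← mulVec_mulVec, ← mulVec_mulVec, e, hl, mulVec_smul, ← T.eqv,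
      smul_inv_smul]⟩⟩

/-- the cocycle of the covering on which powers of the peak function live -/
def ch (T : V.Top om) (hne : ∀ x, om x ≠ 0) : Coc S (V.Γ ⧸ Nn T hne) :=
  V.c.map (QuotientGroup.mk' (Nn T hne))

instance (T : V.Top om) (hne : ∀ x, om x ≠ 0) : Countable (V.Γ ⧸ Nn T hne) :=
  QuotientGroup.mk_surjective.countable

end pk

end

end Pool.Agent.Lib.MP_5c318e_ag.K
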