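import Pool.Agent.Lib.MP_5c318e_ag.K.Avg
import Pool.Agent.Lib.MP_5c318e_ag.G.Pkg
import Pool.Agent.Lib.MP_5c318e_ag.C.Siz
import Pool.Agent.Lib.MP_5c318e_ag.Z.LDefs

/-! Peak functions over a finite chart. -/

set_option autoImplicit false
set_option linter.unusedSectionVars false

namespace Pool.Agent.Lib.MP_5c318e_ag

open MeasureTheory Filter Topology

noncomputable section

theorem RD.psh_neg_log_rpow {ι : Type} [Fintype ι] {S : Type} [TopologicalSpace S]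
    [MeasurableSpace S] {D : RD ι S} {f : S → ℂ} (hf : D.Hol f) (h0 : ∀ x, f x ≠ 0) (s : ℝ) :
    D.Psh fun x => -Real.log (‖f x‖ ^ s) := by
  have e : (fun x => -Real.log (‖f x‖ ^ s)) = fun x => -s * Real.log ‖f x‖ := funext fun x => by
    rw [Real.log_rpow (norm_pos_iff.2 (h0 x)), neg_mul]
  have a : D.Sm fun x => Real.log ‖f x‖ := fun x =>
    ((RD.WP.hol_sm hf x).norm ℂ (h0 _)).log (norm_ne_zero_iff.2 (h0 _))
  rw [e]
  refine ⟨(RD.sm_const _).mul a, fun x ξ => ?_⟩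
  rw [RD.levi_cmul _ a]
  exact (mul_eq_zero_of_right _ (V.lev_log_norm_holo (RD.WP.ana hf x).contDiffAt (h0 _))).ge

variable {δ F : Type} [Fintype δ] [DecidableEq δ] [Field F] [Algebra ℂ F] {B : FCht δ F} {η : F}
  {k0 : ℕ}

theorem Base.dn_pos (h : Base B η k0) (p : Pt B.O) : 0 < B.dn η k0 p :=
  Real.rpow_pos_of_pos (norm_pos_iff.2 (h.ne p)) _

theorem Base.psh_dn (h : Base B η k0) : B.D.Psh fun p => -Real.log (B.dn η k0 p) :=
  RD.psh_neg_log_rpow (f := fun p : Pt B.O => p.ev η)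
    (by simpa only [Pt.ev_of_mem _ h.mem] using B.toCht.hol ⟨η, h.mem⟩) h.ne _

theorem G.HL.peak {n : Type} [Fintype n] [DecidableEq n] {w : ℕ} {V : G.Pk B.D n w}
    {om : V.Bt → n → ℂ} (H : G.HL V om) (h : Base B η k0) {Dn : Pt B.O → ℝ} {c : ℝ} {M : ℕ}
    (e : ∀ p, Dn p = c * V.N om p ^ M) : Nonempty (Peak B η k0 Dn (K.ch H.top H.ne)) := by
  obtain ⟨n0, h0, hp⟩ := K.peak H.top H.ne H.full H.hull B.toCht.exh h.dn_pos h.psh_dn h.mass
  refine ⟨⟨inferInstance, G.Cv.rd B.D _, G.Cv.rmap_y _, n0, h0, fun x0 => ?_⟩⟩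
  obtain ⟨u, u1, u2, u3, u4⟩ := hp (M * n0) (Dvd.intro_left _ rfl) x0
  refine ⟨u, u1, u2, ?_, ?_⟩
  · refine lt_of_le_of_lt ?_ (ENNReal.mul_lt_top (ENNReal.ofReal_lt_top (r := |c ^ n0|)) u3)
    rw [← lintegral_const_mul' _ _ ENNReal.ofReal_ne_top]
    refine lintegral_mono fun x => ?_
    rw [← ENNReal.ofReal_mul (abs_nonneg _), e, mul_pow, ← pow_mul]
    refine ENNReal.ofReal_le_ofReal (le_trans (le_of_eq (by ring))
      (mul_le_mul_of_nonneg_right (le_abs_self _) ?_))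
    exact mul_nonneg (mul_nonneg (sq_nonneg _) (pow_pos ((K.psh_N H.top H.ne H.full).1 _) _).le)
      (h.dn_pos _).le
  · simp only [e, mul_pow, ← pow_mul, mul_left_comm _ (c ^ n0)]
    exact (congrFun (fderiv_const_smul_field (𝕜 := ℝ) (c ^ n0)) _).trans (by
      rw [Pi.smul_apply, u4, smul_zero])

end

end Pool.Agent.Lib.MP_5c318e_ag
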