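import Pool.Agent.Lib.MP_5c318e_ag.K.Peak

/-! `Line.crit` is proved in `K/Peak`. -/
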