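import Pool.Agent.Lib.MP_5c318e_ag.K.Peak
import Pool.Agent.Lib.MP_5c318e_ag.K.Jet
import Pool.Agent.Lib.MP_5c318e_ag.G.Exh
import Pool.Agent.Lib.MP_5c318e_ag.G.HFin

/-! Peak functions on the quotient of the monodromy cover by the scalar subgroup. -/

set_option autoImplicit false
set_option linter.unusedSectionVars false

namespace Pool.Agent.Lib.MP_5c318e_ag.K

open Complex Filter Topology Matrix V B G MeasureTheory

variable {ι : Type} [Fintype ι] {n : Type} [Fintype n] [DecidableEq n] {w : ℕ}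
  {S : Type} [TopologicalSpace S] [MeasurableSpace S] [BorelSpace S] [T2Space S]
  [SigmaCompactSpace S] {D : RD ι S}

theorem lint_le_of_surj {S1 : Type} [TopologicalSpace S1] [MeasurableSpace S1] [BorelSpace S1]
    [SigmaCompactSpace S1] {D1 : RD ι S1} {p : S1 → S} (R : RMap D1 D p)
    (hp : Function.Surjective p) {F : S → ENNReal} (hF : Measurable F) :
    ∫⁻ y, F y ∂D.μ ≤ ∫⁻ x, F (p x) ∂D1.μ := by
  rw [D.lintegral_eq hF, D1.lintegral_eq (F := fun x => F (p x)) (hF.comp R.cont.measurable)]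
  refine lintegral_mono fun z => ?_
  refine ENNReal.tsum_le_tsum_comp_of_surjective (f := fun x : D1.π ⁻¹' {z} =>
    (⟨p x, (R.eq x).symm.trans x.2⟩ : D.π ⁻¹' {z})) (fun y => ?_) fun y => F y
  obtain ⟨x, hx⟩ := hp y
  exact ⟨⟨x, (R.eq x).trans (hx ▸ y.2)⟩, Subtype.ext hx⟩

theorem sc_root {V : Pk D n w} {om : V.Bt → n → ℂ} (hne : ∀ x, om x ≠ 0) (x0 : V.Bt) {γ : V.Γ}
    {l : ℂ} (hl : ∀ x, cx γ *ᵥ om x = l • om x) {m : ℕ} (hm : γ ^ m = 1) : l ^ m = 1 := by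
  have k : ∀ j : ℕ, cx ((γ ^ j : V.Γ) : GL n ℤ) *ᵥ om x0 = l ^ j • om x0 := fun j => by
    induction j with
    | zero => simp [cx]
    | succ j ih => rw [pow_succ', V.cx_coe_mul, ← mulVec_mulVec, ih, mulVec_smul, hl, smul_smul,
        pow_succ]
  have e := k m
  rw [hm, ← pow_zero γ, k 0, pow_zero] at e
  exact (smul_left_injective ℂ (hne x0) e).symm

/-- `-log N` is psh on the base -/
theorem psh_N {V : Pk D n w} {om : V.Bt → n → ℂ} (T : V.Top om) (hne : ∀ x, om x ≠ 0)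
    (hF : Full V.rd w V.P om) : (∀ y, 0 < V.N om y) ∧ D.Psh fun y => -Real.log (V.N om y) := by
  have L := line_of_top T hne hF
  refine ⟨fun y => L.pos ⟨y, 1⟩, (Cv.rmap_y D (c := V.c)).psh_of Cv.y_surjective ?_⟩
  simpa only [N_eq T] using L.psh

/-- peak functions on the quotient cover -/
theorem peak {V : Pk D n w} {om : V.Bt → n → ℂ} (T : V.Top om) (hne : ∀ x, om x ≠ 0)
    (hF : Full V.rd w V.P om) (H : V.Hull om) {ψ : S → ℝ} (hψ : D.Exh ψ) {μ0 : S → ℝ}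
    (hp : ∀ y, 0 < μ0 y) (hμ : D.Psh fun y => -Real.log (μ0 y))
    (hm : ∫⁻ y, ENNReal.ofReal (μ0 y) ∂D.μ < ⊤) :
    ∃ n0 : ℕ, 0 < n0 ∧ ∀ t : ℕ, n0 ∣ t → ∀ x0 : Cv (ch T hne), ∃ u : Cv (ch T hne) → ℂ,
      (Cv.rd D (ch T hne)).Hol u ∧ u x0 ≠ 0 ∧
      ∫⁻ x, ENNReal.ofReal (‖u x‖ ^ 2 * V.N om x.y ^ t * μ0 x.y) ∂(Cv.rd D (ch T hne)).μ < ⊤ ∧
      fderiv ℝ (fun z => ‖u ((Cv.rd D (ch T hne)).sec x0 z)‖ ^ 2 *
        V.N om ((Cv.rd D (ch T hne)).sec x0 z).y ^ t) ((Cv.rd D (ch T hne)).π x0) = 0 := by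
  classical
  rcases isEmpty_or_nonempty S with hS | hS
  · exact ⟨1, one_pos, fun _ _ x0 => hS.elim x0.y⟩
  obtain ⟨hfin, hinv, -, n0, h0, hn0⟩ := H.fin
  refine ⟨n0, h0, fun t ht x0 => ?_⟩
  have L := line_of_top T hne hF
  have sj : Function.Surjective (Cv.map (QuotientGroup.mk' (Nn T hne)) : V.Bt → Cv (ch T hne)) :=
    Cv.map_surjective (QuotientGroup.mk'_surjective _)
  have R : RMap V.rd (Cv.rd D (ch T hne)) (Cv.map (QuotientGroup.mk' (Nn T hne))) :=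
    Cv.rmap_map D _
  obtain ⟨x1, rfl⟩ := sj x0
  have ex : ∀ y, Real.exp (-(-Real.log (μ0 y))) = μ0 y := fun y => by
    rw [neg_neg, Real.exp_log (hp y)]
  have cμ : Continuous μ0 := hμ.1.neg.rexp.cont.congr ex
  have cN : Continuous (V.N om) := (psh_N T hne hF).2.1.neg.rexp.cont.congr fun y => by
    rw [neg_neg, Real.exp_log ((psh_N T hne hF).1 _)]
  obtain ⟨u1, hu, hi, hj⟩ := L.peak (V.exh hψ x1) ((Cv.rmap_y D (c := V.c)).psh hμ) x1
    (fun r => by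
      obtain ⟨M, hM⟩ := V.lintegral_le x1 r
      simp only [ex]
      exact (hM _ cμ.measurable.ennreal_ofReal).trans_lt
        (ENNReal.mul_lt_top (ENNReal.natCast_lt_top M) hm)) t
  simp only [ex, ← N_eq T] at hi
  set s := hfin.toFinset
  have ms : ∀ γ, γ ∈ s ↔ γ ∈ Nn T hne := fun γ => hfin.mem_toFinset
  have c0 : (s.card : ℂ) ≠ 0 :=
    Nat.cast_ne_zero.2 (Finset.card_ne_zero_of_mem ((ms 1).2 (one_mem _)))
  let ub : V.Bt → ℂ := fun x => (s.card : ℂ)⁻¹ * ∑ γ ∈ s, u1 (γ • x)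
  have inv : ∀ δ ∈ Nn T hne, ∀ x, ub (δ • x) = ub x := fun δ hδ x => by
    simp only [ub, smul_smul]
    congr 1
    refine Finset.sum_bijective (· * δ) (Group.mulRight_bijective δ) (fun γ => ?_) fun _ _ => rfl
    rw [ms, ms, (Nn T hne).mul_mem_cancel_right hδ]
  let u : Cv (ch T hne) → ℂ := fun x => ub ⟨x.y, x.g.out⟩
  have eu : ∀ x : V.Bt, u (Cv.map (QuotientGroup.mk' (Nn T hne)) x) = ub x := fun x => by
    have : (QuotientGroup.mk' (Nn T hne) x.g).out * x.g⁻¹ ∈ Nn T hne := by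
      rw [← QuotientGroup.eq_one_iff, QuotientGroup.mk_mul, QuotientGroup.out_eq',
        QuotientGroup.mk_inv]
      exact mul_inv_cancel _
    rw [← inv _ this x]
    exact congrArg ub (Cv.ext rfl (inv_mul_cancel_right _ _).symm)
  have hγ : ∀ γ : V.Γ, V.rd.Hol fun x => u1 (γ • x) := fun γ => (Cv.rmap_smul D γ).hol hu
  have hb : V.rd.Hol ub := fun x => (DifferentiableAt.fun_sum fun γ _ => hγ γ x).const_mul _
  have hU : (Cv.rd D (ch T hne)).Hol u := R.hol_of sj (by simpa only [eu] using hb)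
  have lam : ∀ γ ∈ s, ∀ x, (hq (V.h x1) (om (γ • x)) (om x1))⁻¹ ^ t =
      (hq (V.h x1) (om x) (om x1))⁻¹ ^ t := fun γ h x => by
    obtain ⟨l, hl⟩ := (ms γ).1 h
    obtain ⟨k, rfl⟩ := ht
    rw [T.eqv, hl, hq_smul, mul_inv, mul_pow, inv_pow l, pow_mul l,
      sc_root hne x1 hl (hn0 γ ⟨l, hl⟩), one_pow, inv_one, one_mul]
  have jet := fun γ (h : γ ∈ s) => hj (γ • x1) (hinv γ ((ms γ).1 h) x1).1 (by
    obtain ⟨l, hl⟩ := (ms γ).1 h
    exact ⟨l, (T.eqv γ x1).trans (hl x1)⟩)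
  obtain ⟨k1, k2⟩ := L.crit x1 t hb (by
      simp only [ub]
      rw [Finset.sum_congr rfl fun γ h => (jet γ h).1.trans (lam γ h x1), Finset.sum_const,
        nsmul_eq_mul, inv_mul_cancel_left₀ c0]) (by
      have e : ∀ γ ∈ s, fderiv ℂ (fun z => u1 (γ • V.rd.sec x1 z)) (V.rd.π x1) =
          fderiv ℂ (fun z => (hq (V.h x1) (om (V.rd.sec x1 z)) (om x1))⁻¹ ^ t) (V.rd.π x1) :=
        fun γ h => by
          rw [(Cv.rmap_smul D γ).fderiv_eq u1, (jet γ h).2, ← (Cv.rmap_smul D γ).fderiv_eq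
            fun x => (hq (V.h x1) (om x) (om x1))⁻¹ ^ t]
          simp only [lam γ h]
      simp only [ub]
      rw [fderiv_const_mul (DifferentiableAt.fun_sum fun γ _ => hγ γ x1),
        fderiv_fun_sum fun γ _ => hγ γ x1, Finset.sum_congr rfl e, Finset.sum_const,
        ← Nat.cast_smul_eq_nsmul ℂ, smul_smul, inv_mul_cancel₀ c0, one_smul])
  refine ⟨u, hU, by rwa [eu], ?_, ?_⟩
  · have cy : Continuous fun y => V.N om y ^ t * μ0 y := (cN.pow t).mul cμ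
    have m1 : Measurable fun x : V.Bt => ENNReal.ofReal (‖u1 x‖ ^ 2 * V.N om x.y ^ t * μ0 x.y) := by
      simp only [mul_assoc]
      exact ((hu.cont.norm.pow 2).mul
        (cy.comp Cv.continuous_y)).measurable.ennreal_ofReal
    have m2 : ∀ γ : V.Γ, Measurable fun x : V.Bt =>
        ENNReal.ofReal (‖u1 (γ • x)‖ ^ 2 * V.N om x.y ^ t * μ0 x.y) := fun γ =>
      m1.comp (continuous_const_smul γ).measurable
    refine (lint_le_of_surj R sj ?_).trans_lt (lt_of_le_of_lt (lintegral_mono (g := fun x =>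
      ∑ γ ∈ s, ENNReal.ofReal (‖u1 (γ • x)‖ ^ 2 * V.N om x.y ^ t * μ0 x.y)) fun x => ?_) ?_)
    · simp only [mul_assoc]
      exact ((hU.cont.norm.pow 2).mul
        (cy.comp Cv.continuous_y)).measurable.ennreal_ofReal
    · have p0 : 0 ≤ V.N om x.y ^ t * μ0 x.y :=
        mul_nonneg (pow_nonneg ((psh_N T hne hF).1 _).le _) (hp _).le
      simp only [eu, Cv.map_y, mul_assoc]
      rw [← ENNReal.ofReal_sum_of_nonneg fun γ _ => mul_nonneg (sq_nonneg _) p0, ← Finset.sum_mul]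
      refine ENNReal.ofReal_le_ofReal (mul_le_mul_of_nonneg_right ?_ p0)
      have c1 : (1 : ℝ) ≤ s.card := by exact_mod_cast Nat.one_le_iff_ne_zero.2 (by simpa using c0)
      have a : ‖ub x‖ ≤ (s.card : ℝ)⁻¹ * ∑ γ ∈ s, ‖u1 (γ • x)‖ := by
        simp only [ub, norm_mul, norm_inv, Complex.norm_natCast]
        exact mul_le_mul_of_nonneg_left (norm_sum_le _ _) (by positivity)
      have b := sq_sum_le_card_mul_sum_sq (s := s) (f := fun γ => ‖u1 (γ • x)‖)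
      have d : 0 ≤ ∑ γ ∈ s, ‖u1 (γ • x)‖ ^ 2 := Finset.sum_nonneg fun _ _ => sq_nonneg _
      refine (pow_le_pow_left₀ (norm_nonneg _) a 2).trans ?_
      rw [mul_pow, inv_pow, inv_mul_le_iff₀ (by positivity)]
      nlinarith [mul_nonneg (mul_nonneg (zero_le_one.trans c1) (sub_nonneg.2 c1)) d]
    · rw [lintegral_finsetSum _ fun γ _ => m2 γ]
      refine ENNReal.sum_lt_top.2 fun γ _ => lt_of_le_of_lt ((lint_le_of_surj
        (Cv.rmap_smul D γ⁻¹) (MulAction.surjective γ⁻¹) (m2 γ)).trans_eq ?_) hi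
      simp only [smul_inv_smul, Cv.smul_y]
  · rw [← R.fderiv_eq fun x => ‖u x‖ ^ 2 * V.N om x.y ^ t]
    simpa only [eu, Cv.map_y, N_eq T] using k2

/-- `Full` passes to the hull -/
theorem Full.hull {V : Pk D n w} {om : V.Bt → n → ℂ} (hF : Full V.rd w V.P om) {k : ℕ}
    {W : Pk D (Fin k) w} {om1 : W.Bt → Fin k → ℂ} (T1 : W.Top om1) {B : Matrix n (Fin k) ℂ}
    {f : V.Bt → W.Bt} (hB : Function.Injective B.mulVec) (hs : Function.Surjective f)
    (hc : Continuous f) (hy : ∀ x, (f x).y = x.y) (ho : ∀ x, om x = B *ᵥ om1 (f x))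
    (hP : ∀ p x, V.P p x * B = B * W.P p (f x)) : Full W.rd w W.P om1 := fun x1 ξ => by
  obtain ⟨x, rfl⟩ := hs x1
  have R : RMap V.rd W.rd f := ⟨hc, fun x => by simp [hy]⟩
  obtain ⟨c, h⟩ := hF x ξ
  have e : fderiv ℂ (fun z => om (V.rd.sec x z)) (V.rd.π x) ξ =
      B *ᵥ fderiv ℂ (fun z => om1 (W.rd.sec (f x) z)) (W.rd.π (f x)) ξ := by
    rw [← R.fderiv_eq om1]
    simp only [ho]
    exact congrArg (· ξ) ((LinearMap.toContinuousLinearMap (mulVecLin B)).hasFDerivAt.comp _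
      (R.hol T1.hol x).hasFDerivAt).fderiv
  refine ⟨c, hB ?_⟩
  rw [e, mulVec_mulVec, hP, ho] at h
  simpa only [mulVec_mulVec, mulVec_smul] using h

end Pool.Agent.Lib.MP_5c318e_ag.K
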