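import Pool.Agent.Lib.MP_5c318e_ag.K.KDefs

/-! A neighbourhood of a polarised grading on which the holomorphic projector coordinates are
bounded and determine the grading continuously. -/

set_option autoImplicit false
set_option linter.unusedSectionVars false

namespace Pool.Agent.Lib.MP_5c318e_ag.K

open Complex Filter Topology Matrix V B G
open scoped ComplexConjugate ComplexOrder

noncomputable section

variable {n : Type} [Fintype n] [DecidableEq n] {w : ℕ} {Q : Matrix n n ℂ}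
  {P0 : ℤ → Matrix n n ℂ}

theorem cont_fro : Continuous (fro : Matrix n n ℂ → ℝ) := by
  unfold fro
  fun_prop

theorem contAt_inv {X : Type} [TopologicalSpace X] {M : X → Matrix n n ℂ} {a : X}
    (h : ContinuousAt M a) (u : (M a).det ≠ 0) : ContinuousAt (fun b => (M b)⁻¹) a := by
  refine ContinuousAt.comp (g := fun A : Matrix n n ℂ => A⁻¹) (continuousAt_matrix_inv _ ?_) h
  rw [Ring.inverse_eq_inv']
  exact continuousAt_inv₀ u

theorem cont_Fp (T : Finset ℤ) (q : ℤ) : Continuous fun a : ℤ → Matrix n n ℂ => Fp T a q :=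
  continuous_finsetSum _ fun p _ => by fun_prop

theorem cont_weyP : Continuous (weyP w : (ℤ → Matrix n n ℂ) → Matrix n n ℂ) :=
  continuous_finsetSum _ fun p _ => by fun_prop

/-- the projector coordinates -/
def Ef (w : ℕ) (P0 a : ℤ → Matrix n n ℂ) (q : Fin (w + 2)) : Matrix n n ℂ :=
  Eo (Fp (wt w) a (q : ℕ)) (Fp (wt w) P0 (q : ℕ))

theorem Ef_self (H : Prj (wt w) P0) (q : Fin (w + 2)) : Ef w P0 P0 q = Fp (wt w) P0 (q : ℕ) :=
  Eo_self (Fp_idem H _)

/-- uniform bounds near `P0` -/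
structure Bd (w : ℕ) (Q : Matrix n n ℂ) (P0 : ℤ → Matrix n n ℂ) (c C : ℝ) (a : ℤ → Matrix n n ℂ) :
    Prop where
  det : ∀ q : Fin (w + 2), (Fp (wt w) a (q : ℕ) + Fp (wt w) P0 (q : ℕ) - 1).det ≠ 0
  e1 : ∀ q, fro (Ef w P0 a q) ≤ C
  e2 : ∀ q, fro (1 - Ef w P0 a q) ≤ C
  h1 : fro (Q * weyP w a) ≤ C
  h2 : nsq (Q * weyP w a) 1 (1 : Matrix n n ℂ) ≤ C
  h3 : nsq (Q * weyP w P0) (Q * weyP w a) (1 : Matrix n n ℂ) ≤ C
  h4 : c ≤ nsq (Q * weyP w P0) (Q * weyP w a) (1 : Matrix n n ℂ)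

theorem ev_le {X : Type} [TopologicalSpace X] {f : X → ℝ} {a : X} (h : ContinuousAt f a) {C : ℝ}
    (hC : f a < C) : ∀ᶠ b in 𝓝 a, f b ≤ C := (h.eventually_lt continuousAt_const hC).mono
  fun _ h => h.le

theorem contAt_Ef (H : Prj (wt w) P0) (q : Fin (w + 2)) :
    ContinuousAt (fun a => Ef w P0 a q) P0 :=
  (cont_Fp _ _).continuousAt.mul (contAt_inv
    (((cont_Fp _ _).add continuous_const).sub continuous_const).continuousAt
    (det_self (Fp_idem H _)))

theorem exists_bd [Nonempty n] (H : PHS w Q P0) :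
    ∃ c C : ℝ, 0 < c ∧ 0 < C ∧ ∀ᶠ a in 𝓝 P0, Bd w Q P0 c C a := by
  have ch : Continuous fun a : ℤ → Matrix n n ℂ => Q * weyP w a := continuous_const.mul cont_weyP
  have c2 : ContinuousAt (fun a : ℤ → Matrix n n ℂ => nsq (Q * weyP w a) 1 (1 : Matrix n n ℂ)) P0 :=
    continuous_re.continuousAt.comp ((continuous_id.matrix_trace).continuousAt.comp
      ((((contAt_inv ch.continuousAt H.pos.det_pos.ne').mul continuousAt_const).mul
        continuousAt_const).mul continuousAt_const))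
  have c3 : Continuous fun a : ℤ → Matrix n n ℂ =>
      nsq (Q * weyP w P0) (Q * weyP w a) (1 : Matrix n n ℂ) :=
    continuous_re.comp ((continuous_const.mul ch).mul continuous_const).matrix_trace
  have p3 : 0 < nsq (Q * weyP w P0) (Q * weyP w P0) (1 : Matrix n n ℂ) :=
    nsq_pos H.pos H.pos one_ne_zero
  have p2 : 0 ≤ nsq (Q * weyP w P0) 1 (1 : Matrix n n ℂ) := nsq_nonneg H.pos PosDef.one _
  have p1 := fro_nonneg (Q * weyP w P0)
  have s1 : ∀ q, fro (Ef w P0 P0 q) ≤ ∑ q, fro (Ef w P0 P0 q) := fun q =>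
    Finset.single_le_sum (f := fun q => fro (Ef w P0 P0 q)) (fun _ _ => fro_nonneg _)
      (Finset.mem_univ q)
  have s2 : ∀ q, fro (1 - Ef w P0 P0 q) ≤ ∑ q, fro (1 - Ef w P0 P0 q) := fun q =>
    Finset.single_le_sum (f := fun q => fro (1 - Ef w P0 P0 q)) (fun _ _ => fro_nonneg _)
      (Finset.mem_univ q)
  have n1 : 0 ≤ ∑ q, fro (Ef w P0 P0 q) := Finset.sum_nonneg fun _ _ => fro_nonneg _
  have n2 : 0 ≤ ∑ q, fro (1 - Ef w P0 P0 q) := Finset.sum_nonneg fun _ _ => fro_nonneg _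
  obtain ⟨C, hC⟩ : ∃ C, C = ∑ q, fro (Ef w P0 P0 q) + ∑ q, fro (1 - Ef w P0 P0 q) +
      fro (Q * weyP w P0) + nsq (Q * weyP w P0) 1 (1 : Matrix n n ℂ) +
      nsq (Q * weyP w P0) (Q * weyP w P0) (1 : Matrix n n ℂ) + 1 := ⟨_, rfl⟩
  refine ⟨nsq (Q * weyP w P0) (Q * weyP w P0) (1 : Matrix n n ℂ) / 2, C, by linarith, by linarith,
    ?_⟩
  have a0 : ∀ᶠ a in 𝓝 P0, ∀ q : Fin (w + 2),
      (Fp (wt w) a (q : ℕ) + Fp (wt w) P0 (q : ℕ) - 1).det ≠ 0 :=
    eventually_all.2 fun q => (((cont_Fp _ _).add continuous_const).sub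
      continuous_const).matrix_det.continuousAt.eventually_ne (det_self (Fp_idem H.prj _))
  filter_upwards [a0,
    eventually_all.2 fun q => ev_le (C := C) (cont_fro.continuousAt.comp (contAt_Ef H.prj q))
      (by have := s1 q; simp only [Function.comp]; linarith),
    eventually_all.2 fun q => ev_le (C := C) (cont_fro.continuousAt.comp
      ((continuousAt_const (y := (1 : Matrix n n ℂ))).sub (contAt_Ef H.prj q)))
      (by have := s2 q; simp only [Function.comp, Pi.sub_apply]; linarith),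
    ev_le (C := C) (cont_fro.comp ch).continuousAt (by simp only [Function.comp]; linarith),
    ev_le (C := C) c2 (by linarith), ev_le (C := C) c3.continuousAt (by linarith),
    continuousAt_const.eventually_lt c3.continuousAt (half_lt_self p3)]
    with a b0 b1 b2 b3 b4 b5 b6
  exact ⟨b0, b1, b2, b3, b4, b5, b6.le⟩

theorem unitQ (H : PHS w Q P0) : IsUnit Q.det := by
  have := H.pos.det_pos.ne'
  rw [det_mul] at this
  exact (left_ne_zero_of_mul this).isUnit

/-- the grading read off from the projector coordinates -/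
def bk (w : ℕ) (Q : Matrix n n ℂ) (X : Fin (w + 2) → Matrix n n ℂ) (p : ℤ) : Matrix n n ℂ :=
  if h : p ∈ wt w then
    back Q (X ⟨p.toNat, by have := (Finset.mem_Icc.1 h).2; omega⟩) -
      back Q (X ⟨p.toNat + 1, by have := (Finset.mem_Icc.1 h).2; omega⟩)
  else 0

theorem bk_eq {a : ℤ → Matrix n n ℂ} (H : Prj (wt w) a) {X : Fin (w + 2) → Matrix n n ℂ}
    (h : ∀ q : Fin (w + 2), back Q (X q) = Fp (wt w) a (q : ℕ)) : bk w Q X = a := by
  funext p
  rw [bk]
  split_ifs with hp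
  · have e : ((p.toNat : ℕ) : ℤ) = p := Int.toNat_of_nonneg (Finset.mem_Icc.1 hp).1
    rw [h, h]
    simp only [Nat.cast_add, Nat.cast_one, e]
    exact Fp_sub hp
  · exact (H.zero p hp).symm

theorem exists_tube [Nonempty n] (H : PHS w Q P0) :
    ∃ (c C r : ℝ) (O K : Set (ℤ → Matrix n n ℂ)), 0 < c ∧ 0 < C ∧ 0 < r ∧ IsOpen O ∧ IsClosed K ∧
      K ⊆ O ∧ P0 ∈ O ∧ (∀ a ∈ O, Bd w Q P0 c C a) ∧ ∀ a ∈ O, PHS w Q a →
        ∑ q, fro (Ef w P0 a q - Fp (wt w) P0 (q : ℕ)) ≤ r → a ∈ K := by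
  obtain ⟨c, C, hc, hC, h⟩ := exists_bd H
  obtain ⟨O, hO, oO, mO⟩ := mem_nhds_iff.1 h
  obtain ⟨K, hK, cK, sK⟩ := exists_mem_nhds_isClosed_subset (oO.mem_nhds mO)
  have uQ := unitQ H
  let F0 : Fin (w + 2) → Matrix n n ℂ := fun q => Fp (wt w) P0 (q : ℕ)
  let X : (Fin (w + 2) × n × n → ℂ) → Fin (w + 2) → Matrix n n ℂ :=
    fun Z q => F0 q + Matrix.of fun i j => Z (q, i, j)
  have X0 : ∀ q, X 0 q = F0 q := fun q => by
    ext i j
    simp [X]
  have cX : ∀ q, Continuous fun Z => X Z q := fun q =>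
    continuous_const.add (continuous_matrix fun i j => continuous_apply _)
  have cA : ∀ q, Continuous fun Z => X Z q + Q⁻¹ * (X Z q)ᴴ * Q - 1 := fun q =>
    ((cX q).add ((continuous_const.mul (cX q).matrix_conjTranspose).mul continuous_const)).sub
      continuous_const
  have dA : ∀ q, (X 0 q + Q⁻¹ * (X 0 q)ᴴ * Q - 1).det ≠ 0 := fun q => by
    rw [X0, adj_eq uQ (Fp_adj H.adj _)]
    exact det_self (Fp_idem H.prj _)
  have cB : ∀ q, ContinuousAt (fun Z => back Q (X Z q)) 0 := fun q =>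
    (cX q).continuousAt.mul (contAt_inv (cA q).continuousAt (dA q))
  have cb : ContinuousAt (fun Z => bk w Q (X Z)) 0 := continuousAt_pi.2 fun p => by
    simp only [bk]
    split_ifs
    · exact (cB _).sub (cB _)
    · exact continuousAt_const
  have b0 : bk w Q (X 0) = P0 := bk_eq H.prj fun q => by
    rw [X0]
    exact back_self uQ (Fp_adj H.adj _) (Fp_idem H.prj _)
  have ev : ∀ᶠ Z in 𝓝 (0 : Fin (w + 2) × n × n → ℂ), bk w Q (X Z) ∈ K ∧
      ∀ q, (X Z q + Q⁻¹ * (X Z q)ᴴ * Q - 1).det ≠ 0 :=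
    (cb.eventually_mem (b0 ▸ hK)).and
      (eventually_all.2 fun q => (cA q).matrix_det.continuousAt.eventually_ne (dA q))
  obtain ⟨ε, hε, he⟩ := Metric.eventually_nhds_iff.1 ev
  refine ⟨c, C, (ε / 2) ^ 2, O, K, hc, hC, by positivity, oO, cK, sK, mO, fun a ha => hO ha,
    fun a ha Ha hr => ?_⟩
  let Z : Fin (w + 2) × n × n → ℂ := fun k => (Ef w P0 a k.1 - F0 k.1) k.2.1 k.2.2
  have XZ : ∀ q, X Z q = Ef w P0 a q := fun q => by
    ext i j
    simp [X, Z]
  have hZ : dist Z 0 < ε := by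
    rw [dist_zero_right]
    refine lt_of_le_of_lt ((pi_norm_le_iff_of_nonneg (by positivity)).2 fun k => ?_)
      (half_lt_self hε)
    refine (pow_le_pow_iff_left₀ (norm_nonneg _) (by positivity) two_ne_zero).1 (le_trans ?_ hr)
    refine le_trans ?_ (Finset.single_le_sum (f := fun q => fro (Ef w P0 a q - F0 q))
      (fun _ _ => fro_nonneg _) (Finset.mem_univ k.1))
    refine le_trans ?_ (Finset.single_le_sum
      (f := fun i => ∑ j, ‖(Ef w P0 a k.1 - F0 k.1) i j‖ ^ 2)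
      (fun _ _ => Finset.sum_nonneg fun _ _ => sq_nonneg _) (Finset.mem_univ k.2.1))
    exact Finset.single_le_sum (f := fun j => ‖(Ef w P0 a k.1 - F0 k.1) k.2.1 j‖ ^ 2)
      (fun _ _ => sq_nonneg _) (Finset.mem_univ k.2.2)
  obtain ⟨h1, h2⟩ := he hZ
  rwa [bk_eq Ha.prj fun q => ?_] at h1
  have := h2 q
  rw [XZ] at this ⊢
  exact back_Eo uQ (Fp_adj Ha.adj _) (Fp_idem Ha.prj _) (Fp_idem H.prj _)
    ((hO ha).det q).isUnit this.isUnit

end

end Pool.Agent.Lib.MP_5c318e_ag.K
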