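import Pool.Agent.Lib.MP_5c318e_ag.K.Par
import Pool.Agent.Lib.MP_5c318e_ag.L.Interp
import Pool.Agent.Lib.MP_5c318e_ag.W.LP

/-! Square integrable sections of powers of the Hodge line with a prescribed one-jet. -/

set_option autoImplicit false
set_option linter.unusedSectionVars false

namespace Pool.Agent.Lib.MP_5c318e_ag.K

open Complex Filter Topology Matrix V B G L MeasureTheory
open scoped ContDiff ComplexConjugate ComplexOrder

noncomputable section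

variable {ι : Type} [Fintype ι] {n : Type} [Fintype n] [DecidableEq n] {w : ℕ}
  {S : Type} [TopologicalSpace S] [MeasurableSpace S] {D : RD ι S}
  {Q : Matrix n n ℂ} {P : ℤ → S → Matrix n n ℂ} {om : S → n → ℂ}

/-- the pairing with the value at `x0` -/
def lm (w : ℕ) (Q : Matrix n n ℂ) (P : ℤ → S → Matrix n n ℂ) (om : S → n → ℂ) (x0 x : S) : ℂ :=
  hq (hh w Q P x0) (om x) (om x0)

/-- the normalised section -/
def ph (w : ℕ) (Q : Matrix n n ℂ) (P : ℤ → S → Matrix n n ℂ) (om : S → n → ℂ) (x0 x : S) : n → ℂ :=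
  (lm w Q P om x0 x)⁻¹ • om x

/-- the coordinates of the tube -/
def Zc (w : ℕ) (Q : Matrix n n ℂ) (P : ℤ → S → Matrix n n ℂ) (om : S → n → ℂ) (x0 : S) :
    (Fin (w + 2) × n × n) ⊕ n → S → ℂ
  | Sum.inl k => fun x => (Ef w (fun p => P p x0) (fun p => P p x) k.1 -
      Fp (wt w) (fun p => P p x0) (k.1 : ℕ)) k.2.1 k.2.2
  | Sum.inr i => fun x => (ph w Q P om x0 x - ph w Q P om x0 x0) i

/-- the Higgs field at a point -/
def tH (D : RD ι S) (w : ℕ) (Q : Matrix n n ℂ) (P : ℤ → S → Matrix n n ℂ) (x : S) (ξ : ι → ℂ) :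
    Matrix n n ℂ := th (fun z => hh w Q P (D.sec x z)) ξ (D.π x)

/-- the bounded plurisubharmonic function -/
def rho (w : ℕ) (Q : Matrix n n ℂ) (P : ℤ → S → Matrix n n ℂ) (ε : ℝ) (x0 x : S) : ℝ :=
  -Real.exp (-ε * Real.log (nsq (hh w Q P x0) (hh w Q P x) (1 : Matrix n n ℂ)))

theorem nq_Zc (x0 x : S) : nq (Zc w Q P om x0) x =
    ∑ q, fro (Ef w (fun p => P p x0) (fun p => P p x) q - Fp (wt w) (fun p => P p x0) (q : ℕ)) +
      vs (ph w Q P om x0 x - ph w Q P om x0 x0) := by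
  simp only [nq, Fintype.sum_sum_type, Fintype.sum_prod_type, Zc, fro, vs]

theorem lev_rho [Nonempty n] (G : GLV D w Q P) {ε : ℝ} (h0 : 0 ≤ ε)
    (h1 : 2 * ε * (1 + 8 * (0 + KK w n)) ≤ 1) (x0 x : S) (ξ : ι → ℂ) :
    ε ^ 2 * Real.exp (-ε * Real.log (nsq (hh w Q P x0) (hh w Q P x) (1 : Matrix n n ℂ))) *
      (2 * nsq (hh w Q P x0) (hh w Q P x) (tH D w Q P x ξ) /
        nsq (hh w Q P x0) (hh w Q P x) (1 : Matrix n n ℂ)) ≤ D.levi (rho w Q P ε x0) x ξ := by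
  have := lev_neg_exp (ξ := ξ) (gm_const (D.ch x).open_target (G.pos x0)) (G.gm x) (D.mem_tgt x)
    (A := (1 : Matrix n n ℂ)) one_ne_zero h0 h1
  refine le_trans ?_ this
  rw [omA, Th, th_const, Matrix.mul_one, Matrix.mul_zero, sub_zero, D.sec_self]
  refine mul_le_mul_of_nonneg_left (div_le_div_of_nonneg_right (le_add_of_nonneg_right ?_)
    (nsq_nonneg (G.pos x0) (G.pos x) _)) (by positivity)
  exact mul_nonneg zero_le_two (nsq_nonneg (G.pos x0) (G.pos x) _)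

theorem psh_rho [Nonempty n] (G : GLV D w Q P) {ε : ℝ} (h0 : 0 ≤ ε)
    (h1 : 2 * ε * (1 + 8 * (0 + KK w n)) ≤ 1) (x0 : S) : D.Psh (rho w Q P ε x0) :=
  ⟨fun x => (contDiffAt_const.mul ((sm_nsq (met_const (D.ch x).open_target (G.pos x0))
      (G.gm x).toMet (D.mem_tgt x) (smM_const (1 : Matrix n n ℂ))).log
      (nsq_pos (G.pos x0) (G.pos _) one_ne_zero).ne')).exp.neg,
    fun x ξ => le_trans (mul_nonneg (by positivity) (div_nonneg (mul_nonneg zero_le_two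
      (nsq_nonneg (G.pos x0) (G.pos x) _)) (nsq_nonneg (G.pos x0) (G.pos x) _)))
      (lev_rho G h0 h1 x0 x ξ)⟩

theorem hh_eq (x : S) : hh w Q P x = Q * weyP w fun p => P p x := rfl

theorem Bd.hh {c C : ℝ} {x0 x : S} (b : Bd w Q (fun p => P p x0) c C fun p => P p x) :
    fro (hh w Q P x) ≤ C ∧ nsq (hh w Q P x) 1 (1 : Matrix n n ℂ) ≤ C ∧
      nsq (hh w Q P x0) (hh w Q P x) (1 : Matrix n n ℂ) ≤ C ∧
      c ≤ nsq (hh w Q P x0) (hh w Q P x) (1 : Matrix n n ℂ) := by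
  rw [hh_eq, hh_eq]
  exact ⟨b.h1, b.h2, b.h3, b.h4⟩

namespace Line

theorem nonempty (L : Line D w Q P om) (x : S) : Nonempty n := by
  by_contra h
  exact L.ne x (funext fun i => absurd ⟨i⟩ h)

theorem lm_self (L : Line D w Q P om) (x0 : S) : lm w Q P om x0 x0 ≠ 0 := by
  rw [lm, hq_self (L.glv.pos x0)]
  exact ofReal_ne_zero.2 (L.pos x0).ne'

theorem hol_lm (L : Line D w Q P om) (x0 : S) : D.Hol (lm w Q P om x0) := fun x =>
  ((L.topL x).hol_hq _ _).differentiableAt (RD.tgt_nhds (D.mem_tgt x))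

theorem hq_ph {x0 x : S} (hx : lm w Q P om x0 x ≠ 0) :
    hq (hh w Q P x0) (ph w Q P om x0 x) (om x0) = 1 := by
  rw [ph, hq_smul]
  exact inv_mul_cancel₀ hx

theorem topP (L : Line D w Q P om) {x0 x : S} (hx : lm w Q P om x0 x ≠ 0) :
    ∃ U, D.π x ∈ U ∧ TopL U Q (wt w) (fun p z => P p (D.sec x z)) w
      (fun z => ph w Q P om x0 (D.sec x z)) ∧ ∀ z ∈ U, lm w Q P om x0 (D.sec x z) ≠ 0 := by
  have hd : DifferentiableOn ℂ (fun z => lm w Q P om x0 (D.sec x z)) (D.ch x).target :=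
    (L.topL x).hol_hq _ _
  have ho := hd.continuousOn.isOpen_inter_preimage (D.ch x).open_target
    (isOpen_compl_singleton (x := (0 : ℂ)))
  refine ⟨_, ?_, ((L.topL x).mono ho Set.inter_subset_left).smul
      ((hd.mono Set.inter_subset_left).inv fun z hz => hz.2) fun z hz => inv_ne_zero hz.2,
    fun z hz => hz.2⟩
  exact ⟨D.mem_tgt x, by rw [Set.mem_preimage, D.sec_self]; exact hx⟩

theorem d_ph (L : Line D w Q P om) {x0 x : S} (hx : lm w Q P om x0 x ≠ 0) :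
    DifferentiableAt ℂ (fun z => ph w Q P om x0 (D.sec x z)) (D.π x) ∧ ∀ ξ,
      fderiv ℂ (fun z => ph w Q P om x0 (D.sec x z)) (D.π x) ξ =
        (-hq (hh w Q P x0) (tH D w Q P x ξ *ᵥ ph w Q P om x0 x) (om x0)) • ph w Q P om x0 x +
          tH D w Q P x ξ *ᵥ ph w Q P om x0 x := by
  obtain ⟨U, hU, T, h⟩ := L.topP hx
  refine ⟨T.dAt hU, fun ξ => ?_⟩
  have := T.d_norm (fun z hz => hq_ph (h z hz)) hU ξ
  rw [D.sec_self] at this
  exact this

theorem d_Ef (L : Line D w Q P om) {x0 x : S} (q : Fin (w + 2))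
    (u : (Fp (wt w) (fun p => P p x) (q : ℕ) + Fp (wt w) (fun p => P p x0) (q : ℕ) - 1).det ≠ 0)
    (i j : n) : DifferentiableAt ℂ
      (fun z => Ef w (fun p => P p x0) (fun p => P p (D.sec x z)) q i j) (D.π x) ∧ ∀ ξ,
      fderiv ℂ (fun z => Ef w (fun p => P p x0) (fun p => P p (D.sec x z)) q i j) (D.π x) ξ =
        ((1 - Ef w (fun p => P p x0) (fun p => P p x) q) * tH D w Q P x ξ *
          Ef w (fun p => P p x0) (fun p => P p x) q) i j := by
  have i0 := Fp_idem (L.glv.phs x0).prj ((q : ℕ) : ℤ)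
  have u' : (Fp (wt w) (fun p => P p (D.sec x (D.π x))) (q : ℕ) +
      Fp (wt w) (fun p => P p x0) (q : ℕ) - 1).det ≠ 0 := by rwa [D.sec_self]
  have a := hol_EF (L.glv.lv x) (D.mem_tgt x) i0 u' i j
  refine ⟨a, fun ξ => ?_⟩
  have b := congrFun (congrFun (d_EF (L.glv.lv x) (D.mem_tgt x) i0 u' ξ) i) j
  rw [D.sec_self] at b
  exact (d_holo a).symm.trans b

theorem hol_Zc (L : Line D w Q P om) {x0 x : S} {c C : ℝ}
    (b : Bd w Q (fun p => P p x0) c C fun p => P p x) (hx : lm w Q P om x0 x ≠ 0)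
    (k : (Fin (w + 2) × n × n) ⊕ n) :
    DifferentiableAt ℂ (fun z => Zc w Q P om x0 k (D.sec x z)) (D.π x) := by
  rcases k with k | i
  · exact (L.d_Ef k.1 (b.det _) _ _).1.sub_const _
  · exact (differentiableAt_pi.1 (L.d_ph hx).1 i).sub_const _

theorem dq_Zc (L : Line D w Q P om) {x0 x : S} {c C : ℝ}
    (b : Bd w Q (fun p => P p x0) c C fun p => P p x) (hx : lm w Q P om x0 x ≠ 0) (ξ : ι → ℂ) :
    dq D (Zc w Q P om x0) x ξ =
      ∑ q, fro ((1 - Ef w (fun p => P p x0) (fun p => P p x) q) * tH D w Q P x ξ *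
        Ef w (fun p => P p x0) (fun p => P p x) q) +
      vs ((-hq (hh w Q P x0) (tH D w Q P x ξ *ᵥ ph w Q P om x0 x) (om x0)) • ph w Q P om x0 x +
        tH D w Q P x ξ *ᵥ ph w Q P om x0 x) := by
  simp only [dq, Fintype.sum_sum_type, Fintype.sum_prod_type, Zc, fro, vs, Matrix.sub_apply,
    Pi.sub_apply, fderiv_sub_const]
  congr 1
  · exact Finset.sum_congr rfl fun q _ => Finset.sum_congr rfl fun i _ =>
      Finset.sum_congr rfl fun j _ => by
        rw [(L.d_Ef q (b.det q) i j).2]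
  · refine Finset.sum_congr rfl fun i _ => ?_
    rw [← (L.d_ph hx).2, fderiv_apply (L.d_ph hx).1 i]
    rfl

theorem dq_le (L : Line D w Q P om) {x0 x : S} {c C A : ℝ}
    (b : Bd w Q (fun p => P p x0) c C fun p => P p x) (hx : lm w Q P om x0 x ≠ 0)
    (hA : vs (ph w Q P om x0 x) ≤ A) (ξ : ι → ℂ) : dq D (Zc w Q P om x0) x ξ ≤
      ((w + 2) * C * C + 2 * (vs (om x0) * fro (hh w Q P x0) * A * A) + 2 * A) *
        fro (tH D w Q P x ξ) := by
  rw [L.dq_Zc b hx]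
  set T := tH D w Q P x ξ
  set v := ph w Q P om x0 x
  have f0 := fro_nonneg T
  have v0 := vs_nonneg v
  have a1 : ∀ q, fro ((1 - Ef w (fun p => P p x0) (fun p => P p x) q) * T *
      Ef w (fun p => P p x0) (fun p => P p x) q) ≤ C * fro T * C := fun q =>
    (fro_mul _ _).trans (mul_le_mul ((fro_mul _ _).trans (mul_le_mul_of_nonneg_right (b.e2 q) f0))
      (b.e1 q) (fro_nonneg _) (mul_nonneg ((fro_nonneg _).trans (b.e2 q)) f0))
  have a2 := Finset.sum_le_sum fun q (_ : q ∈ Finset.univ) => a1 q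
  rw [Finset.sum_const, Finset.card_univ, Fintype.card_fin, nsmul_eq_mul] at a2
  have a3 : vs (T *ᵥ v) ≤ fro T * A := (vs_mulVec _ _).trans (mul_le_mul_of_nonneg_left hA f0)
  have a4 : ‖hq (hh w Q P x0) (T *ᵥ v) (om x0)‖ ^ 2 ≤ vs (om x0) * (fro (hh w Q P x0) * (fro T * A)) :=
    (hq_le _ _ _).trans (mul_le_mul_of_nonneg_left (mul_le_mul_of_nonneg_left a3 (fro_nonneg _))
      (vs_nonneg _))
  have a5 := vs_add ((-hq (hh w Q P x0) (T *ᵥ v) (om x0)) • v) (T *ᵥ v)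
  rw [vs_smul, norm_neg] at a5
  have a6 := mul_le_mul a4 hA v0 ((sq_nonneg _).trans a4)
  push_cast at a2
  nlinarith

theorem vs_tube {x0 x : S} (hx : lm w Q P om x0 x ≠ 0) :
    vs (om x - lm w Q P om x0 x • ph w Q P om x0 x0) =
      ‖lm w Q P om x0 x‖ ^ 2 * vs (ph w Q P om x0 x - ph w Q P om x0 x0) := by
  rw [← vs_smul, smul_sub]
  congr 2
  rw [ph, smul_smul, mul_inv_cancel₀ hx, one_smul]

theorem exp_wt (L : Line D w Q P om) (t : ℕ) (x : S) (a b : ℝ) :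
    Real.exp (-(t * -Real.log (hn (hh w Q P x) (om x)) + a + b)) =
      hn (hh w Q P x) (om x) ^ t * Real.exp (-a) * Real.exp (-b) := by
  rw [← Real.exp_log (pow_pos (L.pos x) t), ← Real.exp_add, ← Real.exp_add, Real.log_pow]
  congr 1
  ring

theorem hn_le (M : Matrix n n ℂ) (v : n → ℂ) {C A : ℝ} (hC : fro M ≤ C) (hA : vs v ≤ A) :
    hn M v ≤ 1 + A * (C * A) := by
  have a := hq_le M v v
  have b : vs v * (fro M * vs v) ≤ A * (C * A) :=
    mul_le_mul hA (mul_le_mul hC hA (vs_nonneg _) ((fro_nonneg _).trans hC))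
      (mul_nonneg (fro_nonneg _) (vs_nonneg _)) ((vs_nonneg _).trans hA)
  have c : hn M v ≤ ‖hq M v v‖ := re_le_norm _
  nlinarith [sq_nonneg (‖hq M v v‖ - 1)]

variable [BorelSpace S] [T2Space S] [SigmaCompactSpace S]

theorem peak (L : Line D w Q P om) {e : S → ℝ} (he : D.Exh e) {φ : S → ℝ} (hφ : D.Psh φ) (x0 : S)
    (hfin : ∀ R : ℝ, ∫⁻ x in {x | ((hh w Q P x0)⁻¹ * hh w Q P x).trace.re ≤ R},
      ENNReal.ofReal (Real.exp (-φ x)) ∂D.μ < ⊤) (t : ℕ) :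
    ∃ u : S → ℂ, D.Hol u ∧
      ∫⁻ x, ENNReal.ofReal (‖u x‖ ^ 2 * hn (hh w Q P x) (om x) ^ t * Real.exp (-φ x)) ∂D.μ < ⊤ ∧
      ∀ y, (∀ p, P p y = P p x0) → (∃ c : ℂ, om y = c • om x0) →
        u y = (hq (hh w Q P x0) (om y) (om x0))⁻¹ ^ t ∧
        fderiv ℂ (fun z => u (D.sec y z)) (D.π y) =
          fderiv ℂ (fun z => (hq (hh w Q P x0) (om (D.sec y z)) (om x0))⁻¹ ^ t) (D.π y) := by
  have := L.nonempty x0
  obtain ⟨c, C, r, O, K, hc, hC, hr, oO, cK, sK, mO, bO, tK⟩ := exists_tube (L.glv.phs x0)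
  have k0 := KK_nonneg (w := w) (n := n)
  obtain ⟨ε, e0, e1⟩ : ∃ ε : ℝ, 0 < ε ∧ 2 * ε * (1 + 8 * (0 + KK w n)) ≤ 1 :=
    ⟨1 / (2 * (1 + 8 * (0 + KK w n))), by positivity, le_of_eq (by field_simp)⟩
  obtain ⟨s, s0, s1⟩ : ∃ s : ℝ, 0 < s ∧ ∀ a, 0 ≤ a → s ^ 2 * a ≤ 1 → a ≤ r ∧ a ≤ 1 / 2 := by
    have i0 := inv_pos.2 hr
    have i1 := mul_inv_cancel₀ hr.ne'
    refine ⟨r⁻¹ + 2, by positivity, fun a ha h => ?_⟩
    have h1 : (r⁻¹ + 2) * a ≤ 1 := by nlinarith [mul_nonneg i0.le ha]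
    have h2 : r⁻¹ * a ≤ 1 := by nlinarith
    exact ⟨by nlinarith, by nlinarith [mul_nonneg i0.le ha]⟩
  have cα : Continuous fun x p => P p x := continuous_pi fun p => L.glv.cont_P p
  have cl := (L.hol_lm x0).cont
  have co := L.cont
  have cg : Continuous fun x => vs (om x - lm w Q P om x0 x • ph w Q P om x0 x0) := by
    unfold vs
    fun_prop
  obtain ⟨T, hT⟩ : ∃ T : Set S, T = {x | (fun p => P p x) ∈ O ∧
    vs (om x - lm w Q P om x0 x • ph w Q P om x0 x0) < ‖lm w Q P om x0 x‖ ^ 2} := ⟨_, rfl⟩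
  have oT : IsOpen T := hT ▸ (oO.preimage cα).inter (isOpen_lt cg (cl.norm.pow 2))
  have bT : ∀ x ∈ T, Bd w Q (fun p => P p x0) c C fun p => P p x := fun x hx =>
    bO _ (hT ▸ hx).1
  have lT : ∀ x ∈ T, lm w Q P om x0 x ≠ 0 := fun x hx h => by
    have := (hT ▸ hx).2
    rw [h, norm_zero, zero_pow two_ne_zero] at this
    exact absurd (vs_nonneg _) (not_le.2 this)
  have vT : ∀ x ∈ T, vs (ph w Q P om x0 x) ≤ 2 + 2 * vs (ph w Q P om x0 x0) := fun x hx => by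
    have a := (hT ▸ hx).2
    rw [vs_tube (lT x hx)] at a
    have b := vs_add (ph w Q P om x0 x - ph w Q P om x0 x0) (ph w Q P om x0 x0)
    rw [sub_add_cancel] at b
    have : vs (ph w Q P om x0 x - ph w Q P om x0 x0) < 1 :=
      lt_of_mul_lt_mul_left (a.trans_eq (mul_one _).symm) (sq_nonneg _)
    linarith
  have hZ : ∀ k, HolOn D T (Zc w Q P om x0 k) := fun k x hx => L.hol_Zc (bT x hx) (lT x hx) k
  obtain ⟨ζ, hζ⟩ : ∃ ζ : (Fin (w + 2) × n × n) ⊕ n → S → ℂ,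
    ζ = fun k x => (s : ℂ) * (Zc w Q P om x0 k x - 0) := ⟨_, rfl⟩
  have hζ1 : ∀ k, HolOn D T (ζ k) := fun k => hζ ▸
    (holOn_const _).mul ((hZ k).sub (holOn_const _))
  have hζ2 : ∀ x, nq ζ x = s ^ 2 * nq (Zc w Q P om x0) x := fun x => by
    simp only [hζ, nq, Finset.mul_sum, sub_zero, norm_mul, mul_pow, norm_real, Real.norm_eq_abs,
      sq_abs]
  have hζ3 : ∀ x ∈ T, ∀ ξ, dq D ζ x ξ = s ^ 2 * dq D (Zc w Q P om x0) x ξ := fun x hx ξ => by
    rw [hζ, dq_affine hZ hx _ fun _ => 0, norm_real, Real.norm_eq_abs, sq_abs]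
  have cA : IsClosed {x | x ∈ T ∧ nq ζ x ≤ 1} := by
    have c1 : IsClosed {x | (fun p => P p x) ∈ K ∧
        vs (om x - lm w Q P om x0 x • ph w Q P om x0 x0) ≤ ‖lm w Q P om x0 x‖ ^ 2 / 2} :=
      (cK.preimage cα).inter (isClosed_le cg ((cl.norm.pow 2).div_const 2))
    have c2 : ∀ x, (fun p => P p x) ∈ K ∧
        vs (om x - lm w Q P om x0 x • ph w Q P om x0 x0) ≤ ‖lm w Q P om x0 x‖ ^ 2 / 2 → x ∈ T :=
      fun x hx => by
        rw [hT]
        refine ⟨sK hx.1, hx.2.trans_lt (half_lt_self (pow_pos (norm_pos_iff.2 fun h => ?_) 2))⟩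
        have := hx.2
        rw [h, zero_smul, sub_zero, norm_zero, zero_pow two_ne_zero, zero_div] at this
        exact L.ne x (vs_eq_zero (le_antisymm this (vs_nonneg _)))
    have c3 := ContinuousOn.preimage_isClosed_of_isClosed
      (fun x hx => (nq_contAt hζ1 (c2 x hx)).continuousWithinAt) c1 (isClosed_Iic (a := (1 : ℝ)))
    convert c3 using 1
    ext x
    refine ⟨fun hx => ⟨?_, hx.2⟩, fun hx => ⟨c2 x hx.1, hx.2⟩⟩
    obtain ⟨a1, a2⟩ := s1 _ (nq_nonneg _ _) (hζ2 x ▸ hx.2)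
    rw [nq_Zc] at a1 a2
    have n1 := vs_nonneg (ph w Q P om x0 x - ph w Q P om x0 x0)
    have n2 : 0 ≤ ∑ q, fro (Ef w (fun p => P p x0) (fun p => P p x) q -
        Fp (wt w) (fun p => P p x0) (q : ℕ)) := Finset.sum_nonneg fun _ _ => fro_nonneg _
    refine ⟨tK _ (hT ▸ hx.1).1 (L.glv.phs x) (by linarith), ?_⟩
    rw [vs_tube (lT x hx.1)]
    nlinarith [sq_nonneg ‖lm w Q P om x0 x‖]
  obtain ⟨A, hA⟩ : ∃ A, A = 2 + 2 * vs (ph w Q P om x0 x0) := ⟨_, rfl⟩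
  have A0 : 0 ≤ A := by have := vs_nonneg (ph w Q P om x0 x0); linarith
  rw [← hA] at vT
  obtain ⟨C1, hC1⟩ : ∃ C1 : ℝ,
    C1 = (w + 2) * C * C + 2 * (vs (om x0) * fro (hh w Q P x0) * A * A) + 2 * A := ⟨_, rfl⟩
  have C10 : 0 ≤ C1 := by
    have := vs_nonneg (om x0)
    have := fro_nonneg (hh w Q P x0)
    rw [hC1]
    positivity
  have c0 := nsq_nonneg PosDef.one (L.glv.pos x0) (1 : Matrix n n ℂ)
  obtain ⟨m, hm⟩ : ∃ m, m = ε ^ 2 * Real.exp (-ε * Real.log C) * (2 / C) := ⟨_, rfl⟩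
  have m0 : 0 < m := by rw [hm]; positivity
  obtain ⟨M, hM⟩ : ∃ M : ℝ, M = C0 * (Fintype.card ι + (2 : ℕ)) * (s ^ 2 * (C1 * (C *
    nsq 1 (hh w Q P x0) (1 : Matrix n n ℂ)))) / m := ⟨_, rfl⟩
  have M0 : 0 ≤ M := by
    have := C0_pos
    rw [hM]
    positivity
  have p1 := RD.WP.psh_add (RD.WP.psh_mul L.psh t.cast_nonneg) hφ
  have p2 := RD.WP.psh_mul (psh_rho L.glv e0.le e1 x0) M0
  obtain ⟨u, u1, u2, u3⟩ := interp_jet D he (J := Unit) (T := fun _ => T) (fun _ => oT)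
    (ζ := fun _ => ζ) (fun _ => hζ1) (fun _ => cA) (fun _ _ _ _ _ _ _ => rfl)
    (f := fun _ x => (lm w Q P om x0 x)⁻¹ ^ t)
    (fun _ x hx => ((L.hol_lm x0 x).inv (by rw [D.sec_self]; exact lT x hx)).pow t) (n := 2)
    one_le_two (RD.WP.psh_add p1 p2) (fun _ x hx _ ξ => by
      have b := bT x hx
      have τ0 := nsq_pos (L.glv.pos x0) (L.glv.pos x) (one_ne_zero (α := Matrix n n ℂ))
      have θ0 := nsq_nonneg (L.glv.pos x0) (L.glv.pos x) (tH D w Q P x ξ)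
      have a1 : m * nsq (hh w Q P x0) (hh w Q P x) (tH D w Q P x ξ) ≤
          D.levi (rho w Q P ε x0) x ξ := by
        refine le_trans ?_ (lev_rho L.glv e0.le e1 x0 x ξ)
        rw [hm, mul_assoc, div_mul_eq_mul_div]
        have θ1 := mul_nonneg zero_le_two θ0
        exact mul_le_mul (mul_le_mul_of_nonneg_left (Real.exp_le_exp.2 (mul_le_mul_of_nonpos_left
          (Real.log_le_log τ0 b.hh.2.2.1) (neg_nonpos.2 e0.le))) (sq_nonneg _))
          (div_le_div_of_nonneg_left θ1 τ0 b.hh.2.2.1) (div_nonneg θ1 hC.le)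
          (mul_nonneg (sq_nonneg _) (Real.exp_pos _).le)
      have a2 : fro (tH D w Q P x ξ) ≤ C * nsq 1 (hh w Q P x0) (1 : Matrix n n ℂ) *
          nsq (hh w Q P x0) (hh w Q P x) (tH D w Q P x ξ) := by
        refine (fro_le (L.glv.pos x0) (L.glv.pos x) _).trans ?_
        rw [mul_right_comm C]
        exact mul_le_mul_of_nonneg_right (mul_le_mul_of_nonneg_right b.hh.2.1 θ0) c0
      have a3 := L.dq_le b (lT x hx) (vT x hx) ξ
      rw [← hC1] at a3
      have a4 := mul_le_mul_of_nonneg_left (mul_le_mul_of_nonneg_left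
        (a3.trans (mul_le_mul_of_nonneg_left a2 C10)) (sq_nonneg s))
        (show 0 ≤ C0 * ((Fintype.card ι : ℝ) + (2 : ℕ)) by have := C0_pos; positivity)
      rw [RD.levi_add p1.1 p2.1, RD.levi_cmul _ (psh_rho L.glv e0.le e1 x0).1, hζ3 x hx]
      refine le_add_of_nonneg_of_le (p1.2 x ξ) (a4.trans
        (le_trans (le_of_eq ?_) (mul_le_mul_of_nonneg_left a1 M0)))
      rw [hM]
      field_simp) (fun _ => by
      refine lt_of_le_of_lt ?_ (ENNReal.mul_lt_top (ENNReal.ofReal_lt_top (r := (1 + A * (C * A)) ^ t *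
        Real.exp (M * Real.exp (-ε * Real.log c)))) (hfin C))
      rw [← lintegral_const_mul' _ _ ENNReal.ofReal_ne_top]
      refine le_trans (setLIntegral_mono' cA.measurableSet fun x hx => ?_)
        (lintegral_mono_set fun x hx => ?_)
      · rw [← ENNReal.ofReal_mul (by positivity), L.exp_wt, norm_pow, ← pow_mul, mul_comm t 2,
          pow_mul, ← mul_assoc, ← mul_assoc, ← mul_pow, ← hn_smul, mul_right_comm]
        refine ENNReal.ofReal_le_ofReal (mul_le_mul_of_nonneg_right (mul_le_mul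
          (pow_le_pow_left₀ ?_ (hn_le _ _ (bT x hx.1).hh.1 (vT x hx.1)) t) (Real.exp_le_exp.2 ?_)
          (Real.exp_pos _).le (by positivity)) (Real.exp_pos _).le)
        · rw [ph, hn_smul]
          exact mul_nonneg (sq_nonneg _) (L.pos x).le
        · rw [rho, mul_neg, neg_neg]
          exact mul_le_mul_of_nonneg_left (Real.exp_le_exp.2 (mul_le_mul_of_nonpos_left
            (Real.log_le_log hc (bT x hx.1).hh.2.2.2) (neg_nonpos.2 e0.le))) M0
      · have := (bT x hx.1).hh.2.2.1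
        rw [nsq, ip, conjTranspose_one, Matrix.mul_one, Matrix.mul_one] at this
        exact this)
  refine ⟨u, u1, lt_of_le_of_lt (lintegral_mono fun x => ENNReal.ofReal_le_ofReal ?_) u2,
    fun y hy ⟨k, hk⟩ => ?_⟩
  · rw [L.exp_wt, mul_assoc]
    refine mul_le_mul_of_nonneg_left (le_mul_of_one_le_right
      (mul_nonneg (pow_pos (L.pos x) t).le (Real.exp_pos _).le) (Real.one_le_exp ?_)) (sq_nonneg _)
    rw [rho, mul_neg, neg_neg]
    exact mul_nonneg M0 (Real.exp_pos _).le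
  · have ey : (fun p => P p y) = fun p => P p x0 := funext hy
    have k0 : k ≠ 0 := fun h => L.ne y (by rw [hk, h, zero_smul])
    have el : lm w Q P om x0 y = k * lm w Q P om x0 x0 := by rw [lm, hk, hq_smul, lm]
    have ly : lm w Q P om x0 y ≠ 0 := el ▸ mul_ne_zero k0 (L.lm_self x0)
    have ep : ph w Q P om x0 y = ph w Q P om x0 x0 := by
      rw [ph, ph, el, hk, smul_smul, _root_.mul_inv_rev, inv_mul_cancel_right₀ k0]
    have yT : y ∈ T := by
      rw [hT]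
      refine ⟨ey ▸ mO, ?_⟩
      rw [vs_tube ly, ep, sub_self]
      simpa [vs] using pow_pos (norm_pos_iff.2 ly) 2
    obtain ⟨a, -, b⟩ := u3 () y yT fun k => by
      rcases k with k | i
      · simp only [hζ, Zc, ey, Ef_self (L.glv.phs x0).prj, sub_self, Matrix.zero_apply, mul_zero]
      · simp only [hζ, Zc, ep, sub_self, Pi.zero_apply, mul_zero]
    exact ⟨a, b le_rfl⟩

/-- the one-jet of `λ ^ (-t)` is a critical point of the norm -/
theorem crit (L : Line D w Q P om) (x0 : S) (t : ℕ) {u : S → ℂ} (hu : D.Hol u)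
    (h0 : u x0 = (hq (hh w Q P x0) (om x0) (om x0))⁻¹ ^ t)
    (h1 : fderiv ℂ (fun z => u (D.sec x0 z)) (D.π x0) =
      fderiv ℂ (fun z => (hq (hh w Q P x0) (om (D.sec x0 z)) (om x0))⁻¹ ^ t) (D.π x0)) :
    u x0 ≠ 0 ∧ fderiv ℝ (fun z => ‖u (D.sec x0 z)‖ ^ 2 *
      hn (hh w Q P (D.sec x0 z)) (om (D.sec x0 z)) ^ t) (D.π x0) = 0 := by
  have l0 := L.lm_self x0
  refine ⟨h0 ▸ pow_ne_zero t (inv_ne_zero l0), ?_⟩
  obtain ⟨U, hU, T, -⟩ := L.topP l0
  have g1 : DifferentiableAt ℝ (fun z => hn (hh w Q P (D.sec x0 z)) (ph w Q P om x0 (D.sec x0 z)))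
      (D.π x0) := (T.smN hU).differentiableAt (by simp)
  have g2 : fderiv ℝ (fun z => hn (hh w Q P (D.sec x0 z)) (ph w Q P om x0 (D.sec x0 z)))
      (D.π x0) = 0 := by
    ext ξ
    have a := (L.d_ph l0).2 ξ
    have o : hq (hh w Q P (D.sec x0 (D.π x0))) (tH D w Q P x0 ξ *ᵥ
        ph w Q P om x0 (D.sec x0 (D.π x0))) (ph w Q P om x0 (D.sec x0 (D.π x0))) = 0 := T.orth hU ξ
    rw [D.sec_self] at o
    have o' : hq (hh w Q P x0) (tH D w Q P x0 ξ *ᵥ ph w Q P om x0 x0) (om x0) = 0 := by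
      have e : om x0 = lm w Q P om x0 x0 • ph w Q P om x0 x0 := by
        rw [ph, smul_smul, mul_inv_cancel₀ l0, one_smul]
      conv_lhs => rw [hq]; lhs; rw [e]
      rw [hq] at o
      rw [star_smul, smul_dotProduct, o, smul_zero]
    rw [o', neg_zero] at a
    have b := T.d_N hU (ξ := ξ) (c := 0) (by rw [D.sec_self]; exact a)
    rw [zero_mul] at b
    rw [pd_real_eq g1]
    exact mul_eq_zero_of_right _ (congrArg re b)
  have g3 := (g2 ▸ g1.hasFDerivAt).pow t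
  have f1 : DifferentiableAt ℂ (fun z => (lm w Q P om x0 (D.sec x0 z))⁻¹ ^ t) (D.π x0) :=
    ((L.hol_lm x0 x0).inv (by rw [D.sec_self]; exact l0)).pow t
  have n1 := (((L.sm x0).differentiableAt (by simp)).pow t).hasFDerivAt
  have a := ((hu x0).hasFDerivAt.restrictScalars ℝ).norm_sq.mul n1
  have b := (f1.hasFDerivAt.restrictScalars ℝ).norm_sq.mul n1
  have e : (fun z => hn (hh w Q P (D.sec x0 z)) (ph w Q P om x0 (D.sec x0 z)) ^ t) =
      fun z => ‖(lm w Q P om x0 (D.sec x0 z))⁻¹ ^ t‖ ^ 2 *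
        hn (hh w Q P (D.sec x0 z)) (om (D.sec x0 z)) ^ t := by
    funext z
    rw [ph, hn_smul, mul_pow, norm_pow, ← pow_mul, ← pow_mul, mul_comm t 2]
  rw [e] at g3
  have c := b.unique g3
  rw [D.sec_self] at a c
  rw [h0, h1] at a
  refine a.fderiv.trans (c.trans ?_)
  simp

end Line

end

end Pool.Agent.Lib.MP_5c318e_ag.K
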