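import Pool.Agent.Lib.MP_5c318e_ag.H.Reg
import Pool.Agent.Lib.MP_5c318e_ag.V.Gap
import Pool.Agent.Lib.MP_5c318e_ag.V.Top

/-! Holomorphic coordinates of the Hodge filtration near a given grading. -/

set_option autoImplicit false
set_option linter.unusedSectionVars false

namespace Pool.Agent.Lib.MP_5c318e_ag.K

open Complex Filter Topology Matrix V
open scoped ContDiff ComplexConjugate ComplexOrder

noncomputable section

variable {E : Type*} [NormedAddCommGroup E] [NormedSpace ℂ E]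
variable {n : Type*} [Fintype n] [DecidableEq n]

/-- the projector onto the image of `P` along the kernel of `P0` -/
def Eo (P P0 : Matrix n n ℂ) : Matrix n n ℂ := P * (P + P0 - 1)⁻¹

section alg

variable {P P0 Q : Matrix n n ℂ}

theorem mul_Eo (hP : P * P = P) : P * Eo P P0 = Eo P P0 := by
  rw [Eo, ← Matrix.mul_assoc, hP]

theorem Eo_eq (hP : P * P = P) (h0 : P0 * P0 = P0) (u : IsUnit (P + P0 - 1).det) :
    Eo P P0 = (P + P0 - 1)⁻¹ * P0 := by
  have e : (P + P0 - 1) * P = P0 * (P + P0 - 1) := by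
    linear_combination (norm := noncomm_ring) hP - h0
  have := congrArg (fun A => (P + P0 - 1)⁻¹ * A * (P + P0 - 1)⁻¹) e
  simpa only [Eo, ← Matrix.mul_assoc, Matrix.nonsing_inv_mul _ u, Matrix.one_mul,
    Matrix.mul_nonsing_inv_cancel_right _ _ u] using this

theorem Eo_mul0 (hP : P * P = P) (h0 : P0 * P0 = P0) (u : IsUnit (P + P0 - 1).det) :
    Eo P P0 * P0 = Eo P P0 := by
  rw [Eo_eq hP h0 u, Matrix.mul_assoc, h0]

theorem mul0_Eo (h0 : P0 * P0 = P0) (u : IsUnit (P + P0 - 1).det) : P0 * Eo P P0 = P0 := by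
  have e : P0 * P = P0 * (P + P0 - 1) := by linear_combination (norm := noncomm_ring) -h0
  rw [Eo, ← Matrix.mul_assoc, e, Matrix.mul_nonsing_inv_cancel_right _ _ u]

theorem Eo_mul (hP : P * P = P) (h0 : P0 * P0 = P0) (u : IsUnit (P + P0 - 1).det) :
    Eo P P0 * P = P := by
  have e : P0 * P = (P + P0 - 1) * P := by linear_combination (norm := noncomm_ring) -hP
  rw [Eo_eq hP h0 u, Matrix.mul_assoc, e, Matrix.nonsing_inv_mul_cancel_left _ _ u]

theorem det_self (h0 : P0 * P0 = P0) : (P0 + P0 - 1).det ≠ 0 := by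
  have e : (P0 + P0 - 1) * (P0 + P0 - 1) = 1 := by
    linear_combination (norm := noncomm_ring) (4 : ℤ) • h0
  have := congrArg det e
  rw [det_mul, det_one] at this
  exact left_ne_zero_of_mul_eq_one this

theorem Eo_self (h0 : P0 * P0 = P0) : Eo P0 P0 = P0 := by
  have u := (det_self h0).isUnit
  rw [← mul_Eo h0, mul0_Eo h0 u]

/-- the way back, for a self adjoint projector -/
def back (Q X : Matrix n n ℂ) : Matrix n n ℂ := X * (X + Q⁻¹ * Xᴴ * Q - 1)⁻¹

theorem adj_eq (uQ : IsUnit Q.det) (a : Pᴴ * Q = Q * P) : Q⁻¹ * Pᴴ * Q = P := by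
  rw [Matrix.mul_assoc, a, Matrix.nonsing_inv_mul_cancel_left _ _ uQ]

theorem back_Eo (uQ : IsUnit Q.det) (a : Pᴴ * Q = Q * P) (hP : P * P = P) (h0 : P0 * P0 = P0)
    (u : IsUnit (P + P0 - 1).det) (v : IsUnit (Eo P P0 + Q⁻¹ * (Eo P P0)ᴴ * Q - 1).det) :
    back Q (Eo P P0) = P := by
  have e1 : P * (Q⁻¹ * (Eo P P0)ᴴ * Q) = P := by
    have b := congrArg conjTranspose (Eo_mul hP h0 u)
    rw [conjTranspose_mul] at b
    generalize (Eo P P0)ᴴ = X at *
    calc P * (Q⁻¹ * X * Q) = Q⁻¹ * Pᴴ * Q * (Q⁻¹ * X * Q) := by rw [adj_eq uQ a]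
      _ = Q⁻¹ * (Pᴴ * X) * Q := by
        simp only [Matrix.mul_assoc, Matrix.mul_nonsing_inv_cancel_left _ _ uQ]
      _ = P := by rw [b, adj_eq uQ a]
  have e : P * (Eo P P0 + Q⁻¹ * (Eo P P0)ᴴ * Q - 1) = Eo P P0 := by
    rw [Matrix.mul_sub, Matrix.mul_add, e1, mul_Eo hP, Matrix.mul_one, add_sub_cancel_right]
  rw [back]
  conv_lhs => lhs; rw [← e]
  rw [Matrix.mul_nonsing_inv_cancel_right _ _ v]

theorem back_self (uQ : IsUnit Q.det) (a : P0ᴴ * Q = Q * P0) (h0 : P0 * P0 = P0) :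
    back Q P0 = P0 := by
  rw [back, adj_eq uQ a]
  exact Eo_self h0

end alg

section calc1

variable {P : E → Matrix n n ℂ} {P0 : Matrix n n ℂ} {x ξ : E} {c : ℂ}

theorem sm_Eo (hP : SmM P x) (u : (P x + P0 - 1).det ≠ 0) : SmM (fun y => Eo (P y) P0) x :=
  hP.mul (((hP.add (smM_const _)).sub (smM_const _)).inv u)

theorem der_Eo (hP : SmM P x) (hi : ∀ᶠ y in 𝓝 x, P y * P y = P y) (h0 : P0 * P0 = P0)
    (u : (P x + P0 - 1).det ≠ 0) : derM c ξ (fun y => Eo (P y) P0) x =
      (1 - Eo (P x) P0) * derM c ξ P x * Eo (P x) P0 := by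
  have ev : ∀ᶠ y in 𝓝 x, (P y + P0 - 1).det ≠ 0 :=
    ((hP.add (smM_const _)).sub (smM_const _)).det.continuousAt.eventually_ne u
  have sE := sm_Eo hP u
  have e1 : derM c ξ (fun y => P0 * Eo (P y) P0) x = derM c ξ (fun _ => P0) x :=
    derM_congr (ev.mono fun y hy => mul0_Eo h0 hy.isUnit)
  have e2 : derM c ξ (fun y => P y * Eo (P y) P0) x = derM c ξ (fun y => Eo (P y) P0) x :=
    derM_congr (hi.mono fun y hy => mul_Eo hy)
  rw [derM_const_mul _ sE, derM_const] at e1
  rw [derM_mul hP sE] at e2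
  have a := Eo_mul0 hi.self_of_nhds h0 u.isUnit
  have b := Eo_mul hi.self_of_nhds h0 u.isUnit
  generalize derM c ξ (fun y => Eo (P y) P0) x = D at *
  generalize Eo (P x) P0 = X at *
  linear_combination (norm := noncomm_ring) X * e1 - a * D - (1 - X) * e2 - b * D

end calc1

/-- the projector onto `F^p` -/
def Fp (S : Finset ℤ) (P : ℤ → Matrix n n ℂ) (p : ℤ) : Matrix n n ℂ :=
  ∑ q ∈ S, (if p ≤ q then (1 : ℂ) else 0) • P q

section filt

variable {S : Finset ℤ} {P : ℤ → Matrix n n ℂ} {Q : Matrix n n ℂ}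

theorem Fp_idem (H : Prj S P) (p : ℤ) : Fp S P p * Fp S P p = Fp S P p := by
  rw [Fp, H.sum_mul_sum]
  exact Finset.sum_congr rfl fun q _ => by split_ifs <;> simp

theorem Fp_sub {p : ℤ} (hp : p ∈ S) : Fp S P p - Fp S P (p + 1) = P p := by
  rw [Fp, Fp, ← Finset.sum_sub_distrib, Finset.sum_eq_single p]
  · simp
  · intro q _ hq
    by_cases h : p ≤ q
    · rw [if_pos h, if_pos (by omega), sub_self]
    · rw [if_neg h, if_neg (by omega), sub_self]
  · exact fun h => absurd hp h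

theorem Fp_adj (a : ∀ p, (P p)ᴴ * Q = Q * P p) (p : ℤ) : (Fp S P p)ᴴ * Q = Q * Fp S P p := by
  rw [Fp, conjTranspose_sum, Finset.sum_mul, Finset.mul_sum]
  refine Finset.sum_congr rfl fun q _ => ?_
  split_ifs <;> simp [a]

variable {U : Set E} {π : ℤ → E → Matrix n n ℂ} {x : E}

theorem unit_Q (L : LV U Q S π) (hx : x ∈ U) : IsUnit Q.det := by
  have := L.met.det_ne hx
  simp only [det_mul] at this
  exact (left_ne_zero_of_mul this).isUnit

theorem dbar_prj (L : LV U Q S π) (hx : x ∈ U) (ξ : E) (p : ℤ) :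
    derM I ξ (π p) x = ths (fun x => Q * wey S π x) ξ x * π p x -
      π p x * ths (fun x => Q * wey S π x) ξ x := by
  have M := L.met
  have e : derM I ξ (fun y => (π p y)ᴴ * (Q * wey S π y)) x =
      derM I ξ (fun y => Q * wey S π y * π p y) x :=
    derM_congr_on L.op hx fun y hy => L.adj_prj hy p
  rw [derM_mul (L.sm p x hx).ct (M.sm x hx), derM_mul (M.sm x hx) (L.sm p x hx),
    dbar_ct (L.sm p x hx), L.d_prj hx, M.dbar_h hx] at e
  have a1 := L.adj_prj hx p
  have a2 := M.adj_th (ξ := ξ) hx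
  simp only [conjTranspose_sub, conjTranspose_mul] at e a2
  generalize ths (fun x => Q * wey S π x) ξ x = T at *
  generalize (th (fun x => Q * wey S π x) ξ x)ᴴ = T' at *
  have u : IsUnit (Q * wey S π x).det := M.unit hx
  generalize Q * wey S π x = H at *
  have f : H * derM I ξ (π p) x = H * (T * π p x - π p x * T) := by
    simp only [Matrix.mul_smul, Matrix.smul_mul] at e
    have e' : H * derM I ξ (π p) x = ((π p x)ᴴ * T' - T' * (π p x)ᴴ) * H
        - (π p x)ᴴ * (H * T) - (π p x)ᴴ * (H * T) + H * T * π p x + H * T * π p x := by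
      linear_combination (norm := module) -e
    rw [e']
    linear_combination (norm := noncomm_ring) (π p x)ᴴ * a2 - T' * a1 - a2 * π p x - a1 * T
  have := congrArg (fun A => H⁻¹ * A) f
  simpa only [Matrix.nonsing_inv_mul_cancel_left _ _ u] using this

theorem sm_Fp (L : LV U Q S π) (hx : x ∈ U) (p : ℤ) : SmM (fun y => Fp S (fun q => π q y) p) x :=
  SmM.sum S fun q _ => (L.sm q x hx).csmul _

theorem d_Fp (L : LV U Q S π) (hx : x ∈ U) (ξ : E) (p : ℤ) :
    derM (-I) ξ (fun y => Fp S (fun q => π q y) p) x =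
      th (fun x => Q * wey S π x) ξ x * Fp S (fun q => π q x) p -
        Fp S (fun q => π q x) p * th (fun x => Q * wey S π x) ξ x := by
  simp only [Fp]
  rw [derM_sum S fun q _ => (L.sm q x hx).csmul _, Finset.mul_sum, Finset.sum_mul,
    ← Finset.sum_sub_distrib]
  refine Finset.sum_congr rfl fun q _ => ?_
  rw [derM_csmul _ (L.sm q x hx), L.d_prj hx, smul_sub, Matrix.mul_smul, Matrix.smul_mul]

theorem dbar_Fp (L : LV U Q S π) (hx : x ∈ U) (ξ : E) (p : ℤ) :
    derM I ξ (fun y => Fp S (fun q => π q y) p) x =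
      ths (fun x => Q * wey S π x) ξ x * Fp S (fun q => π q x) p -
        Fp S (fun q => π q x) p * ths (fun x => Q * wey S π x) ξ x := by
  simp only [Fp]
  rw [derM_sum S fun q _ => (L.sm q x hx).csmul _, Finset.mul_sum, Finset.sum_mul,
    ← Finset.sum_sub_distrib]
  refine Finset.sum_congr rfl fun q _ => ?_
  rw [derM_csmul _ (L.sm q x hx), dbar_prj L hx, smul_sub, Matrix.mul_smul, Matrix.smul_mul]

theorem ths_Fp (L : LV U Q S π) (hx : x ∈ U) (ξ : E) (p : ℤ) :
    Fp S (fun q => π q x) p * (ths (fun x => Q * wey S π x) ξ x * Fp S (fun q => π q x) p) =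
      ths (fun x => Q * wey S π x) ξ x * Fp S (fun q => π q x) p := by
  conv_lhs => rhs; rw [Fp]
  conv_rhs => rw [Fp]
  rw [Finset.mul_sum, Finset.mul_sum]
  refine Finset.sum_congr rfl fun q _ => ?_
  split_ifs with h
  · rw [one_smul, L.ths_shift hx, ← Matrix.mul_assoc, Fp, (L.prj x hx).sum_mul,
      if_pos (by omega), one_smul]
  · simp

variable {P0 : Matrix n n ℂ} {p : ℤ}

theorem d_EF (L : LV U Q S π) (hx : x ∈ U) (h0 : P0 * P0 = P0)
    (u : (Fp S (fun q => π q x) p + P0 - 1).det ≠ 0) (ξ : E) :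
    derM (-I) ξ (fun y => Eo (Fp S (fun q => π q y) p) P0) x =
      (1 - Eo (Fp S (fun q => π q x) p) P0) * th (fun x => Q * wey S π x) ξ x *
        Eo (Fp S (fun q => π q x) p) P0 := by
  have i := Fp_idem (L.prj x hx) p
  rw [der_Eo (sm_Fp L hx p) (eventually_of_mem (L.op.mem_nhds hx) fun y hy =>
    Fp_idem (L.prj y hy) p) h0 u, d_Fp L hx]
  have a := mul_Eo (P0 := P0) i
  have b := Eo_mul i h0 u.isUnit
  generalize Eo (Fp S (fun q => π q x) p) P0 = X at *
  generalize th (fun x => Q * wey S π x) ξ x = T at *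
  linear_combination (norm := noncomm_ring) (1 - X) * T * a + b * T * X

theorem dbar_EF (L : LV U Q S π) (hx : x ∈ U) (h0 : P0 * P0 = P0)
    (u : (Fp S (fun q => π q x) p + P0 - 1).det ≠ 0) (ξ : E) :
    derM I ξ (fun y => Eo (Fp S (fun q => π q y) p) P0) x = 0 := by
  have i := Fp_idem (L.prj x hx) p
  rw [der_Eo (sm_Fp L hx p) (eventually_of_mem (L.op.mem_nhds hx) fun y hy =>
    Fp_idem (L.prj y hy) p) h0 u, dbar_Fp L hx]
  have b := Eo_mul i h0 u.isUnit
  have c := ths_Fp L hx ξ p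
  generalize Eo (Fp S (fun q => π q x) p) P0 = X at *
  generalize ths (fun x => Q * wey S π x) ξ x = T at *
  generalize Fp S (fun q => π q x) p = F at *
  linear_combination (norm := noncomm_ring) b * T * X - (1 - X) * c * X - b * T * F * X

theorem hol_EF (L : LV U Q S π) (hx : x ∈ U) (h0 : P0 * P0 = P0)
    (u : (Fp S (fun q => π q x) p + P0 - 1).det ≠ 0) (i j : n) :
    DifferentiableAt ℂ (fun y => Eo (Fp S (fun q => π q y) p) P0 i j) x :=
  holo_of_dbar (sm_Eo (sm_Fp L hx p) u i j).diff fun ξ =>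
    congrFun (congrFun (dbar_EF L hx h0 u ξ) i) j

end filt

end

end Pool.Agent.Lib.MP_5c318e_ag.K
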