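import Pool.Agent.Lib.MP_5c318e_ag.K.Tube
import Pool.Agent.Lib.MP_5c318e_ag.B.HDefs

/-! A holomorphic section spanning a line of top type: local calculus. -/

set_option autoImplicit false
set_option linter.unusedSectionVars false

namespace Pool.Agent.Lib.MP_5c318e_ag.K

open Complex Filter Topology Matrix V B
open scoped ContDiff ComplexConjugate ComplexOrder

noncomputable section

variable {E : Type*} [NormedAddCommGroup E] [NormedSpace ℂ E] [FiniteDimensional ℂ E]
variable {n : Type} [Fintype n] [DecidableEq n]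

/-- the squared euclidean norm -/
def vs (v : n → ℂ) : ℝ := ∑ i, ‖v i‖ ^ 2

theorem vs_nonneg (v : n → ℂ) : 0 ≤ vs v := Finset.sum_nonneg fun _ _ => sq_nonneg _

theorem vs_mulVec (M : Matrix n n ℂ) (v : n → ℂ) : vs (M *ᵥ v) ≤ fro M * vs v := by
  rw [fro, vs, Finset.sum_mul]
  exact Finset.sum_le_sum fun i _ => cs_sum _ _ _

theorem vs_smul (c : ℂ) (v : n → ℂ) : vs (c • v) = ‖c‖ ^ 2 * vs v := by
  simp [vs, Finset.mul_sum, mul_pow]

theorem vs_add (u v : n → ℂ) : vs (u + v) ≤ 2 * vs u + 2 * vs v := by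
  simp only [vs, Finset.mul_sum, ← Finset.sum_add_distrib]
  refine Finset.sum_le_sum fun i _ => ?_
  have := norm_add_le (u i) (v i)
  have h2 : ‖u i + v i‖ ^ 2 ≤ (‖u i‖ + ‖v i‖) ^ 2 := pow_le_pow_left₀ (norm_nonneg _) this 2
  simp only [Pi.add_apply]
  nlinarith [sq_nonneg (‖u i‖ - ‖v i‖)]

theorem vs_neg (v : n → ℂ) : vs (-v) = vs v := by simp [vs]

theorem vs_sub (u v : n → ℂ) : vs (u - v) ≤ 2 * vs u + 2 * vs v := by
  rw [sub_eq_add_neg, ← vs_neg v]
  exact vs_add _ _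

theorem vs_eq_zero {v : n → ℂ} (h : vs v = 0) : v = 0 := by
  funext i
  have := (Finset.sum_eq_zero_iff_of_nonneg fun j _ => sq_nonneg ‖v j‖).1 h i (Finset.mem_univ i)
  simpa using this

theorem hq_le (M : Matrix n n ℂ) (u v : n → ℂ) : ‖hq M u v‖ ^ 2 ≤ vs v * (fro M * vs u) := by
  refine (cs_sum _ _ _).trans ?_
  simp only [Pi.star_apply, norm_star]
  exact mul_le_mul_of_nonneg_left (vs_mulVec M u) (vs_nonneg v)

theorem hq_smul (M : Matrix n n ℂ) (c : ℂ) (u v : n → ℂ) : hq M (c • u) v = c * hq M u v := by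
  simp [hq, mulVec_smul]

theorem hq_add (M : Matrix n n ℂ) (u u' v : n → ℂ) : hq M (u + u') v = hq M u v + hq M u' v := by
  simp [hq, mulVec_add]

theorem hn_smul (M : Matrix n n ℂ) (c : ℂ) (u : n → ℂ) : hn M (c • u) = ‖c‖ ^ 2 * hn M u := by
  have : hq M (c • u) (c • u) = ((‖c‖ ^ 2 : ℝ) : ℂ) * hq M u u := by
    rw [hq_smul, hq, hq, star_smul, smul_dotProduct, smul_eq_mul, ← mul_assoc, RCLike.star_def,
      mul_conj']
    push_cast
    rfl
  rw [hn, this, re_ofReal_mul, hn]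

theorem nsq_col (M : Matrix n n ℂ) (u : n → ℂ) :
    nsq (1 : Matrix Unit Unit ℂ) M (replicateCol Unit u) = hn M u := by
  rw [nsq, ip_col]
  rfl

theorem col_ne {u : n → ℂ} (h : u ≠ 0) : replicateCol Unit u ≠ 0 := fun e =>
  h (funext fun i => congrFun (congrFun e i) ())

theorem hn_pos {M : Matrix n n ℂ} (H : M.PosDef) {u : n → ℂ} (h : u ≠ 0) : 0 < hn M u := by
  rw [← nsq_col]
  exact nsq_pos PosDef.one H (col_ne h)

theorem hq_self {M : Matrix n n ℂ} (H : M.PosDef) (u : n → ℂ) : hq M u u = (hn M u : ℝ) := by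
  rw [← nsq_col, ← ip_self PosDef.one H, ip_col]
  rfl

theorem fro_le {h0 h : Matrix n n ℂ} (H0 : h0.PosDef) (H : h.PosDef) (X : Matrix n n ℂ) :
    fro X ≤ nsq h 1 (1 : Matrix n n ℂ) * nsq h0 h X * nsq 1 h0 (1 : Matrix n n ℂ) := by
  have e : nsq (1 : Matrix n n ℂ) (1 : Matrix n n ℂ) X = fro X := by simp [nsq, ip, trace_ct_self]
  have a := nsq_mul H0 H PosDef.one (1 : Matrix n n ℂ) X
  have b := nsq_mul PosDef.one H0 PosDef.one X (1 : Matrix n n ℂ)
  rw [Matrix.one_mul] at a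
  rw [Matrix.mul_one, e] at b
  exact b.trans (mul_le_mul_of_nonneg_right a (nsq_nonneg PosDef.one H0 _))

/-- a holomorphic section of pure type whose covariant derivative stays in its line -/
structure TopL (U : Set E) (Q : Matrix n n ℂ) (S : Finset ℤ) (π : ℤ → E → Matrix n n ℂ) (w : ℤ)
    (om : E → n → ℂ) : Prop where
  lv : LV U Q S π
  hol : DifferentiableOn ℂ om U
  top : ∀ x ∈ U, π w x *ᵥ om x = om x
  ne : ∀ x ∈ U, om x ≠ 0
  one : ∀ x ∈ U, ∀ ξ, ∃ c : ℂ,
    fderiv ℂ om x ξ = c • om x + th (fun x => Q * wey S π x) ξ x *ᵥ om x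

namespace TopL

variable {U : Set E} {Q : Matrix n n ℂ} {S : Finset ℤ} {π : ℤ → E → Matrix n n ℂ} {w : ℤ}
  {om : E → n → ℂ} {x : E}

theorem dAt (T : TopL U Q S π w om) (hx : x ∈ U) : DifferentiableAt ℂ om x :=
  T.hol.differentiableAt (T.lv.op.mem_nhds hx)

theorem smC (T : TopL U Q S π w om) (hx : x ∈ U) : SmM (fun y => replicateCol Unit (om y)) x :=
  fun i _ => sm_of_holo (eventually_of_mem (T.lv.op.mem_nhds hx) fun _ hy =>
    differentiableAt_pi.1 (T.dAt hy) i)

theorem dbarC (T : TopL U Q S π w om) (hx : x ∈ U) (ξ : E) :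
    derM I ξ (fun y => replicateCol Unit (om y)) x = 0 := by
  ext i j
  exact dbar_holo (differentiableAt_pi.1 (T.dAt hx) i)

theorem dC (T : TopL U Q S π w om) (hx : x ∈ U) (ξ : E) :
    derM (-I) ξ (fun y => replicateCol Unit (om y)) x = replicateCol Unit (fderiv ℂ om x ξ) := by
  ext i j
  refine (d_holo (differentiableAt_pi.1 (T.dAt hx) i)).trans ?_
  rw [fderiv_apply (T.dAt hx) i]
  rfl

theorem degC (T : TopL U Q S π w om) : ∀ y ∈ U, Yh (fun _ => (0 : Matrix Unit Unit ℂ)) (gr S π) y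
    (replicateCol Unit (om y)) = (w : ℂ) • replicateCol Unit (om y) := fun y hy => by
  rw [Yh, Matrix.mul_zero, sub_zero, ← replicateCol_mulVec, ← replicateCol_smul]
  congr 1
  conv_lhs => rw [← T.top y hy, mulVec_mulVec, T.lv.gr_mul hy, smul_mulVec, T.top y hy]

theorem ThC (h : E → Matrix n n ℂ) (ξ x : E) (u : n → ℂ) :
    Th (fun _ => (1 : Matrix Unit Unit ℂ)) h ξ x (replicateCol Unit u) =
      replicateCol Unit (th h ξ x *ᵥ u) := by
  rw [Th, th_const, Matrix.mul_zero, sub_zero, replicateCol_mulVec]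

theorem oneC (T : TopL U Q S π w om) (hx : x ∈ U) {ξ : E} {c : ℂ}
    (h : fderiv ℂ om x ξ = c • om x + th (fun x => Q * wey S π x) ξ x *ᵥ om x) :
    derM (-I) ξ (fun y => replicateCol Unit (om y)) x -
      Th (fun _ => (1 : Matrix Unit Unit ℂ)) (fun x => Q * wey S π x) ξ x
        (replicateCol Unit (om x)) = c • replicateCol Unit (om x) := by
  rw [T.dC hx, ThC, h, replicateCol_add, add_sub_cancel_right, replicateCol_smul]

theorem smN (T : TopL U Q S π w om) (hx : x ∈ U) :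
    ContDiffAt ℝ ∞ (fun y => hn (Q * wey S π y) (om y)) x := by
  simpa only [nsq_col] using sm_nsq (met_const T.lv.op PosDef.one) T.lv.met hx (T.smC hx)

theorem posN (T : TopL U Q S π w om) (hx : x ∈ U) : 0 < hn (Q * wey S π x) (om x) :=
  hn_pos (T.lv.pos x hx) (T.ne x hx)

/-- the curvature of the line -/
theorem lev_eq (T : TopL U Q S π w om) (hx : x ∈ U) (ξ : E) :
    lev (fun y => -Real.log (hn (Q * wey S π y) (om y))) x ξ =
      hn (Q * wey S π x) (th (fun x => Q * wey S π x) ξ x *ᵥ om x) / hn (Q * wey S π x) (om x) := by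
  obtain ⟨c, hc⟩ := T.one x hx ξ
  have := lev_top_eq (gm_const T.lv.op PosDef.one) T.lv.gm hx (fun y hy => T.smC hy)
    (fun y hy => T.dbarC hy ξ) T.degC (col_ne (T.ne x hx)) ⟨c, T.oneC hx hc⟩
  simpa only [ThC, nsq_col] using this

theorem lev_nonneg (T : TopL U Q S π w om) (hx : x ∈ U) (ξ : E) :
    0 ≤ lev (fun y => -Real.log (hn (Q * wey S π y) (om y))) x ξ := by
  rw [T.lev_eq hx, ← nsq_col]
  exact div_nonneg (nsq_nonneg PosDef.one (T.lv.pos x hx) _) (T.posN hx).le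

theorem thsC (T : TopL U Q S π w om) (hx : x ∈ U) (ξ : E) :
    Ths (fun _ => (1 : Matrix Unit Unit ℂ)) (fun x => Q * wey S π x) ξ x
      (replicateCol Unit (om x)) = 0 := by
  have := top_ths (X := fun y => replicateCol Unit (om y)) (ξ := ξ)
    (gm_const T.lv.op (PosDef.one (n := Unit))) T.lv.gm hx (T.smC hx) (T.dbarC hx ξ) T.degC
  exact this

theorem orth (T : TopL U Q S π w om) (hx : x ∈ U) (ξ : E) :
    hq (Q * wey S π x) (th (fun x => Q * wey S π x) ξ x *ᵥ om x) (om x) = 0 := by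
  have := ip_Th (ξ := ξ) (met_const T.lv.op (PosDef.one (n := Unit))) T.lv.met hx
    (replicateCol Unit (om x)) (replicateCol Unit (om x))
  rw [T.thsC hx, ip_zero_right, ThC, ip_col] at this
  exact this

theorem d_N (T : TopL U Q S π w om) (hx : x ∈ U) {ξ : E} {c : ℂ}
    (h : fderiv ℂ om x ξ = c • om x + th (fun x => Q * wey S π x) ξ x *ᵥ om x) :
    der (-I) ξ (fun y => ((hn (Q * wey S π y) (om y) : ℝ) : ℂ)) x =
      c * hn (Q * wey S π x) (om x) := by
  have := d_nsq_hol (ξ := ξ) (met_const T.lv.op (PosDef.one (n := Unit))) T.lv.met hx (T.smC hx)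
    (by rw [T.dbarC hx, T.thsC hx])
  rw [T.oneC hx h, ip_smul_left, ip_self PosDef.one (T.lv.pos x hx)] at this
  simpa only [nsq_col] using this

theorem mono (T : TopL U Q S π w om) {V : Set E} (hV : IsOpen V) (h : V ⊆ U) :
    TopL V Q S π w om :=
  ⟨⟨hV, fun p x hx => T.lv.sm p x (h hx), fun x hx => T.lv.prj x (h hx),
    fun x hx => T.lv.adj x (h hx), fun x hx => T.lv.pos x (h hx), fun x hx => T.lv.ax x (h hx)⟩,
    T.hol.mono h, fun x hx => T.top x (h hx), fun x hx => T.ne x (h hx),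
    fun x hx => T.one x (h hx)⟩

theorem smul (T : TopL U Q S π w om) {g : E → ℂ} (hg : DifferentiableOn ℂ g U)
    (h0 : ∀ x ∈ U, g x ≠ 0) : TopL U Q S π w fun x => g x • om x where
  lv := T.lv
  hol := hg.smul T.hol
  top := fun x hx => by rw [mulVec_smul, T.top x hx]
  ne := fun x hx => smul_ne_zero (h0 x hx) (T.ne x hx)
  one := fun x hx ξ => by
    obtain ⟨c, hc⟩ := T.one x hx ξ
    refine ⟨c + fderiv ℂ g x ξ / g x, ?_⟩
    have := h0 x hx
    rw [fderiv_fun_smul (hg.differentiableAt (T.lv.op.mem_nhds hx)) (T.dAt hx)]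
    simp only [_root_.add_apply, _root_.smul_apply,
      ContinuousLinearMap.smulRight_apply, hc, mulVec_smul, smul_add, smul_smul]
    rw [add_mul, div_mul_cancel₀ _ this, mul_comm c, add_smul]
    abel

theorem hol_hq (T : TopL U Q S π w om) (M : Matrix n n ℂ) (v : n → ℂ) :
    DifferentiableOn ℂ (fun x => hq M (om x) v) U := by
  simp only [hq, dotProduct, mulVec]
  exact DifferentiableOn.fun_sum fun i _ => (DifferentiableOn.fun_sum fun j _ =>
    (differentiableOn_pi.1 T.hol j).const_mul _).const_mul _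

/-- derivative of a normalised section -/
theorem d_norm (T : TopL U Q S π w om) {M : Matrix n n ℂ} {v : n → ℂ}
    (h1 : ∀ x ∈ U, hq M (om x) v = 1) (hx : x ∈ U) (ξ : E) :
    fderiv ℂ om x ξ = (-hq M (th (fun x => Q * wey S π x) ξ x *ᵥ om x) v) • om x +
      th (fun x => Q * wey S π x) ξ x *ᵥ om x := by
  obtain ⟨c, hc⟩ := T.one x hx ξ
  let L : (n → ℂ) →L[ℂ] ℂ := LinearMap.toContinuousLinearMap
    { toFun := fun u => hq M u v
      map_add' := fun a b => hq_add M a b v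
      map_smul' := fun a b => hq_smul M a b v }
  have e : HasFDerivAt (fun y => hq M (om y) v) (L.comp (fderiv ℂ om x)) x :=
    L.hasFDerivAt.comp x (T.dAt hx).hasFDerivAt
  have e0 : HasFDerivAt (fun y => hq M (om y) v) (0 : E →L[ℂ] ℂ) x :=
    (hasFDerivAt_const (1 : ℂ) x).congr_of_eventuallyEq
      (eventually_of_mem (T.lv.op.mem_nhds hx) h1)
  have z : hq M (fderiv ℂ om x ξ) v = 0 := congrArg (fun A : E →L[ℂ] ℂ => A ξ) (e.unique e0)
  rw [hc, hq_add, hq_smul, h1 x hx, mul_one] at z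
  rw [hc, eq_neg_of_add_eq_zero_left z]

end TopL

end

end Pool.Agent.Lib.MP_5c318e_ag.K
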